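import Mathlib

/-!
Systems of conditions `x_i + 1 = x_k`, `x_i ! = x_k`, `x_i ∤ x_k` in positive integers
(MP_38ee21_nt): definitions, and the bound for systems without non-divisibility conditions.
-/

set_option autoImplicit false

namespace Pool.Agent.LibFSN

open Nat Finset

/-- The bound `f n`: `f 1 = 2`, `f 2 = 3`, `f (n + 1) = (f n)!` for `n ≥ 2`. -/
def bnd (n : ℕ) : ℕ := if n = 1 then 2 else Nat.factorial^[n - 2] 3

/-- The solutions, in positive integers, of the system given by the sets `A`, `B`, `C` of pairs of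
indices: `x_i + 1 = x_k` for `(i, k) ∈ A`, `x_i ! = x_k` for `(i, k) ∈ B`, `x_i ∤ x_k` for
`(i, k) ∈ C`. -/
def Sols {n : ℕ} (A B C : Set (Fin n × Fin n)) : Set (Fin n → ℕ) :=
  {x | (∀ i, 1 ≤ x i) ∧ (∀ p ∈ A, x p.1 + 1 = x p.2) ∧ (∀ p ∈ B, Nat.factorial (x p.1) = x p.2) ∧
    (∀ p ∈ C, ¬ (x p.1 ∣ x p.2))}

theorem bnd_one : bnd 1 = 2 := by simp [bnd]
theorem bnd_two : bnd 2 = 3 := by simp [bnd]
theorem bnd_succ {n : ℕ} (hn : 2 ≤ n) : bnd (n + 1) = (bnd n)! := by
  obtain ⟨m, rfl⟩ := Nat.exists_eq_add_of_le hn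
  have h1 : 2 + m + 1 - 2 = m + 1 := by omega
  have h2 : 2 + m - 2 = m := by omega
  have h3 : 2 + m + 1 ≠ 1 := by omega
  have h4 : 2 + m ≠ 1 := by omega
  simp only [bnd, h1, h2, if_neg h3, if_neg h4, Function.iterate_succ_apply']

theorem bnd_three : bnd 3 = 6 := by
  rw [bnd_succ le_rfl, bnd_two]; rfl

theorem bnd_four : bnd 4 = 720 := by
  rw [bnd_succ (by norm_num), bnd_three]; rfl

theorem three_le_bnd {n : ℕ} (hn : 2 ≤ n) : 3 ≤ bnd n := by
  induction n, hn using Nat.le_induction with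
  | base => rw [bnd_two]
  | succ k hk ih => rw [bnd_succ hk]; exact ih.trans (Nat.self_le_factorial _)

theorem bnd_succ_le {n : ℕ} (hn : 1 ≤ n) : bnd n + 1 ≤ bnd (n + 1) := by
  rcases hn.eq_or_lt with rfl | h
  · simp [bnd_one, bnd_two]
  · rw [bnd_succ h]
    exact Nat.lt_factorial_self (three_le_bnd h)

theorem bnd_mono {m n : ℕ} (hm : 1 ≤ m) (h : m ≤ n) : bnd m ≤ bnd n := by
  induction n, h using Nat.le_induction with
  | base => exact le_rfl
  | succ k hk ih => exact ih.trans ((Nat.le_succ _).trans (bnd_succ_le (hm.trans hk)))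

/-- `u ≤ bnd m` and `v` is obtained from `u` in one step, then `v ≤ bnd (m + 1)`. -/
theorem step_le {m u v : ℕ} (hm : 1 ≤ m) (hu : u ≤ bnd m)
    (h : u + 1 = v ∨ v + 1 = u ∨ u ! = v ∨ v ! = u) : v ≤ bnd (m + 1) := by
  have h0 := bnd_succ_le hm
  rcases h with h | h | h | h
  · omega
  · omega
  · subst h
    rcases hm.eq_or_lt with rfl | h'
    · rw [bnd_one] at hu
      interval_cases u <;> simp [bnd_two]
    · rw [bnd_succ h']
      exact Nat.factorial_le hu
  · have := Nat.self_le_factorial v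
    omega

theorem two_mul_le_bnd {m : ℕ} (hm : 4 ≤ m) : 2 * m ≤ bnd m := by
  induction m, hm using Nat.le_induction with
  | base => rw [bnd_four]; norm_num
  | succ k hk ih =>
    rw [bnd_succ (by omega)]
    have h3 : 3 ≤ bnd k := three_le_bnd (by omega)
    have : bnd k * 2 ≤ (bnd k)! := by
      obtain ⟨c, hc⟩ := Nat.exists_eq_add_of_le h3
      rw [hc, show 3 + c = (2 + c) + 1 by ring, Nat.factorial_succ]
      apply Nat.mul_le_mul_left
      calc 2 ≤ 2 + c := by omega
        _ ≤ (2 + c)! := Nat.self_le_factorial _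
    omega

/-- The relation generated by one atom between two values. -/
def Adj (u v : ℕ) : Prop := u + 1 = v ∨ v + 1 = u ∨ u ! = v ∨ v ! = u

theorem Adj.symm {u v : ℕ} (h : Adj u v) : Adj v u := by
  unfold Adj at *; tauto

/-- Growth: if `K` is such that every nonempty subset of `K` that is closed under `Adj` within `K` is all of `K`,
and `W₀ ⊆ K` is bounded by `bnd (card W₀)`, then `K` is bounded by `bnd (card K)`. -/
theorem grow {K W₀ : Finset ℕ} (hW : W₀ ⊆ K) (hne : W₀.Nonempty) (hb : ∀ u ∈ W₀, u ≤ bnd W₀.card)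
    (hK : ∀ W ⊆ K, W.Nonempty → (∀ u ∈ W, ∀ v ∈ K, Adj u v → v ∈ W) → W = K) :
    ∀ u ∈ K, u ≤ bnd K.card := by
  classical
  let F : Finset (Finset ℕ) := K.powerset.filter fun W => W₀ ⊆ W ∧ ∀ u ∈ W, u ≤ bnd W.card
  have hF : W₀ ∈ F := by simp [F, hW, hb]; exact hb
  obtain ⟨W, hWF, hmax⟩ := F.exists_max_image Finset.card ⟨W₀, hF⟩
  simp only [F, mem_filter, mem_powerset] at hWF
  obtain ⟨hWK, hW0, hWb⟩ := hWF
  have hWne : W.Nonempty := hne.mono hW0
  have : W = K := by
    apply hK W hWK hWne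
    intro u hu v hv huv
    by_contra hvW
    have hcard : (insert v W).card = W.card + 1 := card_insert_of_notMem hvW
    have hc1 : 1 ≤ W.card := hWne.card_pos
    have : insert v W ∈ F := by
      simp only [F, mem_filter, mem_powerset]
      refine ⟨insert_subset hv hWK, hW0.trans (subset_insert _ _), ?_⟩
      intro z hz
      rw [hcard]
      rcases mem_insert.1 hz with rfl | hz
      · exact step_le hc1 (hWb u hu) huv
      · exact (hWb z hz).trans (bnd_mono hc1 (Nat.le_succ _))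
    have := hmax _ this
    omega
  rw [← this]
  exact hWb

end Pool.Agent.LibFSN
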