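import Mathlib
import Pool.Agent.LibFSN.Basic

/-!
Systems without non-divisibility conditions: the bound `bnd n` holds for every `n`.
-/

set_option autoImplicit false

namespace Pool.Agent.LibFSN

open Nat Finset

theorem comp_exists (V : Finset ℕ) {M : ℕ} (hM : M ∈ V) :
    ∃ K ⊆ V, M ∈ K ∧ (∀ u ∈ K, ∀ v ∈ V, Adj u v → v ∈ K) ∧
      ∀ W ⊆ K, W.Nonempty → (∀ u ∈ W, ∀ v ∈ K, Adj u v → v ∈ W) → W = K := by
  classical
  let K : Finset ℕ := V.filter fun v =>
    ∀ C ⊆ V, (∀ u ∈ C, ∀ v ∈ V, Adj u v → v ∈ C) → M ∈ C → v ∈ C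
  have hKV : K ⊆ V := filter_subset _ _
  have hmin : ∀ C ⊆ V, (∀ u ∈ C, ∀ v ∈ V, Adj u v → v ∈ C) → M ∈ C → K ⊆ C := by
    intro C h1 h2 h3 v hv
    exact (mem_filter.1 hv).2 C h1 h2 h3
  have hcl : ∀ u ∈ K, ∀ v ∈ V, Adj u v → v ∈ K := by
    intro u hu v hv huv
    refine mem_filter.2 ⟨hv, fun C h1 h2 h3 => h2 u ((mem_filter.1 hu).2 C h1 h2 h3) v hv huv⟩
  refine ⟨K, hKV, mem_filter.2 ⟨hM, fun C _ _ h => h⟩, hcl, ?_⟩
  intro W hW hne hWc
  have hWV : ∀ u ∈ W, ∀ v ∈ V, Adj u v → v ∈ W := fun u hu v hv huv =>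
    hWc u hu v (hcl u (hW hu) v hv huv) huv
  by_cases hMW : M ∈ W
  · exact Subset.antisymm hW (hmin W (hW.trans hKV) hWV hMW)
  · exfalso
    have h1 : K ⊆ K \ W := by
      refine hmin (K \ W) (sdiff_subset.trans hKV) ?_ ?_
      · intro u hu v hv huv
        rw [mem_sdiff] at hu ⊢
        refine ⟨hcl u hu.1 v hv huv, fun hvW => hu.2 (hWV v hvW u (hKV hu.1) huv.symm)⟩
      · exact mem_sdiff.2 ⟨mem_filter.2 ⟨hM, fun C _ _ h => h⟩, hMW⟩
    obtain ⟨w, hw⟩ := hne
    exact (mem_sdiff.1 (h1 (hW hw))).2 hw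

/-- `a` and `b` lie in the same interval of `K`. -/
def SameRun (K : Finset ℕ) (a b : ℕ) : Prop := ∀ z, min a b ≤ z → z ≤ max a b → z ∈ K

/-- The sets for which the equations pin the values. -/
def Rigid (K : Finset ℕ) : Prop :=
  (∃ u ∈ K, u < 3) ∨ (∃ u ∈ K, 3 ≤ u ∧ ∀ z, u ≤ z → z ≤ u ! → z ∈ K) ∨
    ∃ u ∈ K, ∃ w ∈ K, 3 ≤ u ∧ u < w ∧ ∀ z, u ! ≤ z → z ≤ w ! → z ∈ K

theorem fac_gap {u : ℕ} (hu : 3 ≤ u) : 2 * u ≤ u ! := by
  obtain ⟨c, rfl⟩ := Nat.exists_eq_add_of_le hu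
  rw [show 3 + c = (2 + c) + 1 by ring, Nat.factorial_succ]
  have : 2 ≤ (2 + c)! := (by omega : 2 ≤ 2 + c).trans (Nat.self_le_factorial _)
  nlinarith

theorem fac_gap2 {u w : ℕ} (hu : 3 ≤ u) (h : u < w) : 2 * u ! ≤ w ! := by
  calc 2 * u ! ≤ (u + 1) * u ! := Nat.mul_le_mul_right _ (by omega)
    _ = (u + 1)! := (Nat.factorial_succ u).symm
    _ ≤ w ! := Nat.factorial_le h

theorem rigid_bound {K : Finset ℕ}
    (hK : ∀ W ⊆ K, W.Nonempty → (∀ u ∈ W, ∀ v ∈ K, Adj u v → v ∈ W) → W = K) (h : Rigid K) :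
    ∀ u ∈ K, u ≤ bnd K.card := by
  rcases h with ⟨u, hu, h3⟩ | ⟨u, hu, h3, hz⟩ | ⟨u, hu, w, hw, h3, huw, hz⟩
  · refine grow (W₀ := {u}) (by simpa using hu) (by simp) ?_ hK
    intro z hz'
    rw [mem_singleton] at hz'
    subst hz'
    simp only [card_singleton, bnd_one]
    omega
  · have h2 := fac_gap h3
    refine grow (W₀ := Icc u (u !)) ?_ ⟨u, mem_Icc.2 ⟨le_rfl, by omega⟩⟩ ?_ hK
    · intro z hz'
      rw [mem_Icc] at hz'
      exact hz z hz'.1 hz'.2
    · intro z hz'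
      rw [mem_Icc] at hz'
      rw [Nat.card_Icc]
      have := two_mul_le_bnd (m := u ! + 1 - u) (by omega)
      omega
  · have h2 := fac_gap h3
    have h4 := fac_gap2 h3 huw
    refine grow (W₀ := Icc (u !) (w !)) ?_ ⟨u !, mem_Icc.2 ⟨le_rfl, by omega⟩⟩ ?_ hK
    · intro z hz'
      rw [mem_Icc] at hz'
      exact hz z hz'.1 hz'.2
    · intro z hz'
      rw [mem_Icc] at hz'
      rw [Nat.card_Icc]
      have := two_mul_le_bnd (m := w ! + 1 - u !) (by omega)
      omega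

/-- `w` is the source of the factorial edge entering the run of `u`. -/
def Src (K : Finset ℕ) (w u : ℕ) : Prop := w ∈ K ∧ w ! ∈ K ∧ SameRun K (w !) u

theorem Src.lt {K : Finset ℕ} (hK : ¬ Rigid K) {w u : ℕ} (h : Src K w u) : w < u := by
  by_contra hc
  apply hK
  by_cases h3 : w < 3
  · exact Or.inl ⟨w, h.1, h3⟩
  · refine Or.inr (Or.inl ⟨w, h.1, by omega, fun z h1 h2 => h.2.2 z ?_ ?_⟩)
    · exact (min_le_right _ _).trans (by omega)
    · exact h2.trans (le_max_left _ _)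

theorem Src.unique {K : Finset ℕ} (hK : ¬ Rigid K) {w w' u : ℕ} (h : Src K w u) (h' : Src K w' u) :
    w = w' := by
  have key : ∀ {w w' : ℕ}, Src K w u → Src K w' u → w < w' → False := by
    intro w w' h h' hlt
    apply hK
    by_cases h3 : w < 3
    · exact Or.inl ⟨w, h.1, h3⟩
    · refine Or.inr (Or.inr ⟨w, h.1, w', h'.1, by omega, hlt, fun z h1 h2 => ?_⟩)
      by_cases hzu : z ≤ u
      · exact h.2.2 z ((min_le_left _ _).trans h1) (hzu.trans (le_max_right _ _))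
      · exact h'.2.2 z ((min_le_right _ _).trans (by omega)) (h2.trans (le_max_left _ _))
  rcases lt_trichotomy w w' with hlt | he | hlt
  · exact (key h h' hlt).elim
  · exact he
  · exact (key h' h hlt).elim

theorem Src.succ {K : Finset ℕ} {w u : ℕ} (h1 : u + 1 ∈ K) (h : Src K w u) : Src K w (u + 1) := by
  refine ⟨h.1, h.2.1, fun z hz1 hz2 => ?_⟩
  by_cases hz : z = u + 1
  · exact hz ▸ h1
  · apply h.2.2 z
    · rcases le_total (w !) u with hle | hle
      · rw [min_eq_left hle]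
        rw [min_eq_left (by omega)] at hz1
        exact hz1
      · rw [min_eq_right hle]
        have : min (w !) (u + 1) ≤ z := hz1
        rcases min_le_iff.1 this with h' | h' <;> omega
    · rcases le_max_iff.1 hz2 with h' | h'
      · exact h'.trans (le_max_left _ _)
      · exact (by omega : z ≤ u).trans (le_max_right _ _)

theorem Src.pred {K : Finset ℕ} {w u : ℕ} (h0 : u ∈ K) (h : Src K w (u + 1)) : Src K w u := by
  refine ⟨h.1, h.2.1, fun z hz1 hz2 => ?_⟩
  by_cases hz : z = u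
  · exact hz ▸ h0
  · apply h.2.2 z
    · rcases min_le_iff.1 hz1 with h' | h'
      · exact (min_le_left _ _).trans h'
      · exact (min_le_right _ _).trans (by omega)
    · rcases le_max_iff.1 hz2 with h' | h'
      · exact h'.trans (le_max_left _ _)
      · exact (by omega : z ≤ u + 1).trans (le_max_right _ _)

open Classical in
/-- The shift of the value `u` (parameter `b`). -/
noncomputable def sh (K : Finset ℕ) (b : ℕ) (u : ℕ) : ℕ :=
  if h : ∃ w, w < u ∧ Src K w u then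
    (h.choose + sh K b h.choose)! - (h.choose)! else b
termination_by u
decreasing_by exact h.choose_spec.1

theorem sh_of {K : Finset ℕ} (hK : ¬ Rigid K) (b : ℕ) {w u : ℕ} (h : Src K w u) :
    sh K b u = (w + sh K b w)! - w ! := by
  have hex : ∃ w, w < u ∧ Src K w u := ⟨w, h.lt hK, h⟩
  rw [sh, dif_pos hex]
  have : hex.choose = w := Src.unique hK hex.choose_spec.2 h
  rw [this]

theorem sh_not {K : Finset ℕ} (b : ℕ) {u : ℕ} (h : ¬ ∃ w, Src K w u) : sh K b u = b := by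
  rw [sh, dif_neg]
  rintro ⟨w, -, hw⟩
  exact h ⟨w, hw⟩

theorem fac_add_le (w s : ℕ) (hw : 1 ≤ w) : w ! + s ≤ (w + s)! := by
  induction s with
  | zero => simp
  | succ s ih =>
    rw [← add_assoc, ← add_assoc, Nat.factorial_succ]
    have : 1 ≤ (w + s)! := Nat.factorial_pos _
    nlinarith

theorem le_sh {K : Finset ℕ} (hK : ¬ Rigid K) (b : ℕ) : ∀ u ∈ K, b ≤ sh K b u := by
  intro u
  induction u using Nat.strong_induction_on with
  | _ u ih =>
    intro hu
    by_cases h : ∃ w, Src K w u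
    · obtain ⟨w, hw⟩ := h
      rw [sh_of hK b hw]
      have h1 := ih w (hw.lt hK) hw.1
      have h3 : 3 ≤ w := by
        by_contra hc
        exact hK (Or.inl ⟨w, hw.1, by omega⟩)
      have := fac_add_le w (sh K b w) (by omega)
      omega
    · rw [sh_not b h]

theorem sh_succ {K : Finset ℕ} (hK : ¬ Rigid K) (b : ℕ) {u : ℕ} (h0 : u ∈ K) (h1 : u + 1 ∈ K) :
    sh K b (u + 1) = sh K b u := by
  by_cases h : ∃ w, Src K w u
  · obtain ⟨w, hw⟩ := h
    rw [sh_of hK b hw, sh_of hK b (hw.succ h1)]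
  · rw [sh_not b h, sh_not b]
    rintro ⟨w, hw⟩
    exact h ⟨w, hw.pred h0⟩

theorem sh_fac {K : Finset ℕ} (hK : ¬ Rigid K) (b : ℕ) {u : ℕ} (h0 : u ∈ K) (h1 : u ! ∈ K) :
    u ! + sh K b (u !) = (u + sh K b u)! := by
  rw [sh_of hK b (w := u) ⟨h0, h1, fun z hz1 hz2 => ?_⟩]
  · have h3 : 3 ≤ u := by
      by_contra hc
      exact hK (Or.inl ⟨u, h0, by omega⟩)
    have := Nat.factorial_le (show u ≤ u + sh K b u by omega)
    omega
  · rw [min_self] at hz1
    rw [max_self] at hz2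
    have : z = u ! := le_antisymm hz2 hz1
    rw [this]; exact h1

/-- Systems with successor and factorial conditions only: the bound holds for every `n`. -/
theorem plus_bound {n : ℕ} (A B : Set (Fin n × Fin n)) (hfin : (Sols A B ∅).Finite)
    (x : Fin n → ℕ) (hx : x ∈ Sols A B ∅) (i : Fin n) : x i ≤ bnd n := by
  classical
  by_contra hc
  obtain ⟨hx1, hxA, hxB, -⟩ := hx
  let V : Finset ℕ := univ.image x
  have hV : ∀ j, x j ∈ V := fun j => mem_image_of_mem x (mem_univ j)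
  obtain ⟨K, hKV, hMK, hcl, hmin⟩ := comp_exists V (hV i)
  have hcard : K.card ≤ n := by
    calc K.card ≤ V.card := card_le_card hKV
      _ ≤ (univ : Finset (Fin n)).card := card_image_le
      _ = n := by simp
  have hKr : ¬ Rigid K := by
    intro hr
    have h1 := rigid_bound hmin hr _ hMK
    have h2 : 1 ≤ K.card := card_pos.2 ⟨_, hMK⟩
    exact hc (h1.trans (bnd_mono h2 hcard))
  let y : ℕ → Fin n → ℕ := fun b j => if x j ∈ K then x j + sh K b (x j) else x j
  have hy : ∀ b, y b ∈ Sols A B ∅ := by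
    intro b
    refine ⟨fun j => ?_, fun p hp => ?_, fun p hp => ?_, by simp⟩
    · simp only [y]
      have := hx1 j
      split_ifs <;> omega
    · have h := hxA p hp
      have hadj : Adj (x p.1) (x p.2) := Or.inl h
      by_cases h1 : x p.1 ∈ K
      · have h2 : x p.2 ∈ K := hcl _ h1 _ (hV _) hadj
        simp only [y, if_pos h1, if_pos h2]
        rw [← h] at h2 ⊢
        rw [sh_succ hKr b h1 h2]
        ring
      · have h2 : x p.2 ∉ K := fun h2 => h1 (hcl _ h2 _ (hV _) hadj.symm)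
        simp only [y, if_neg h1, if_neg h2]
        exact h
    · have h := hxB p hp
      have hadj : Adj (x p.1) (x p.2) := Or.inr (Or.inr (Or.inl h))
      by_cases h1 : x p.1 ∈ K
      · have h2 : x p.2 ∈ K := hcl _ h1 _ (hV _) hadj
        simp only [y, if_pos h1, if_pos h2]
        rw [← h] at h2 ⊢
        rw [sh_fac hKr b h1 h2]
      · have h2 : x p.2 ∉ K := fun h2 => h1 (hcl _ h2 _ (hV _) hadj.symm)
        simp only [y, if_neg h1, if_neg h2]
        exact h
  obtain ⟨N, hN⟩ := (hfin.image fun z => z i).bddAbove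
  have h1 : y (N + 1) i ≤ N := hN ⟨y (N + 1), hy _, rfl⟩
  have h2 : N + 1 ≤ sh K (N + 1) (x i) := le_sh hKr _ _ hMK
  simp only [y, if_pos hMK] at h1
  omega

end Pool.Agent.LibFSN
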