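import Mathlib
import Pool.Agent.LibFSN.Plus

/-!
Transport of the atomic relations from one value set to another.
-/

set_option autoImplicit false

namespace Pool.Agent.LibFSN

open Nat Finset

/-- `a.1 ↦ a.2`, `b.1 ↦ b.2` preserves equality, successor, factorial and non-divisibility. -/
def Rel (a b : ℕ × ℕ) : Prop :=
  (a.1 = b.1 → a.2 = b.2) ∧ (a.1 + 1 = b.1 → a.2 + 1 = b.2) ∧ (a.1 ! = b.1 → a.2 ! = b.2) ∧
    (¬ a.1 ∣ b.1 → ¬ a.2 ∣ b.2)

/-- The value set `V` can be transported to value sets with an element `≥ N`. -/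
def Good (V : Finset ℕ) (N : ℕ) : Prop :=
  ∃ P : ℕ × ℕ → Prop, (∀ a b, P a → P b → Rel a b) ∧ (∀ a, P a → 1 ≤ a.2) ∧
    (∀ u ∈ V, ∃ g, P (u, g)) ∧ ∃ u ∈ V, ∃ g, P (u, g) ∧ N ≤ g

theorem bound_of_good {n : ℕ} {m : ℕ} (h : ∀ V : Finset ℕ, V.card ≤ n → (∀ u ∈ V, 1 ≤ u) →
    (∃ M ∈ V, m < M) → ∀ N, Good V N) (A B C : Set (Fin n × Fin n)) (hfin : (Sols A B C).Finite)
    (x : Fin n → ℕ) (hx : x ∈ Sols A B C) (i : Fin n) : x i ≤ m := by
  classical
  by_contra hc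
  obtain ⟨hx1, hxA, hxB, hxC⟩ := hx
  let V : Finset ℕ := univ.image x
  have hV : ∀ j, x j ∈ V := fun j => mem_image_of_mem x (mem_univ j)
  have hcard : V.card ≤ n := by
    calc V.card ≤ (univ : Finset (Fin n)).card := card_image_le
      _ = n := by simp
  have hVpos : ∀ u ∈ V, 1 ≤ u := by
    intro u hu
    obtain ⟨j, -, rfl⟩ := mem_image.1 hu
    exact hx1 j
  have hg := h V hcard hVpos ⟨x i, hV i, by omega⟩
  -- a bound for all coordinates of all solutions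
  have hb : ∃ N, ∀ y ∈ Sols A B C, ∀ j, y j ≤ N := by
    obtain ⟨N, hN⟩ := (hfin.image fun z => ∑ j, z j).bddAbove
    exact ⟨N, fun y hy j => (single_le_sum (f := y) (fun _ _ => Nat.zero_le _) (mem_univ j)).trans
      (hN ⟨y, hy, rfl⟩)⟩
  obtain ⟨N, hN⟩ := hb
  obtain ⟨P, h1, h2, h3, u, hu, g, hg1, hg2⟩ := hg (N + 1)
  choose! G hG using h3
  obtain ⟨j, -, rfl⟩ := mem_image.1 hu
  have hGj : G (x j) = g := (h1 _ _ (hG _ (hV j)) hg1).1 rfl
  have hy : (fun j => G (x j)) ∈ Sols A B C := by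
    refine ⟨fun k => h2 _ (hG _ (hV k)), fun p hp => ?_, fun p hp => ?_, fun p hp => ?_⟩
    · exact (h1 _ _ (hG _ (hV p.1)) (hG _ (hV p.2))).2.1 (hxA p hp)
    · exact (h1 _ _ (hG _ (hV p.1)) (hG _ (hV p.2))).2.2.1 (hxB p hp)
    · exact (h1 _ _ (hG _ (hV p.1)) (hG _ (hV p.2))).2.2.2 (hxC p hp)
  have := hN _ hy j
  omega

/-- `a.1` is at distance at most `d` from `w` and `a.2 - b = a.1 - w`. -/
def Near (w b d : ℕ) (a : ℕ × ℕ) : Prop := a.1 + b = a.2 + w ∧ w ≤ a.1 + d ∧ a.1 ≤ w + d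

theorem near_self (w b : ℕ) : Near w b 0 (w, b) := ⟨by simp only; omega, by simp, by simp⟩

theorem Near.mono {w b d e : ℕ} (h : d ≤ e) {a : ℕ × ℕ} (ha : Near w b d a) : Near w b e a :=
  ⟨ha.1, by have := ha.2.1; omega, by have := ha.2.2; omega⟩

theorem fac_six {u : ℕ} (hu : 4 ≤ u) : 6 * u ≤ u ! := by
  obtain ⟨c, rfl⟩ := Nat.exists_eq_add_of_le hu
  rw [show 4 + c = (3 + c) + 1 by ring, Nat.factorial_succ]
  have : 6 ≤ (3 + c)! := by
    calc 6 = 3 ! := rfl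
      _ ≤ (3 + c)! := Nat.factorial_le (by omega)
  nlinarith

/-- Larger element first. -/
theorem rel_down {a b : ℕ × ℕ} (h1 : a.1 < b.1) (h2 : a.2 < b.2) (h3 : 1 ≤ a.2) :
    Rel b a := by
  have := Nat.self_le_factorial b.1
  refine ⟨by omega, by omega, by omega, fun _ hd => ?_⟩
  have := Nat.le_of_dvd (by omega) hd
  omega

theorem near_near {w b d : ℕ} (hd : (d = 0 ∧ 3 ≤ w) ∨ (d = 1 ∧ 4 ≤ w) ∨ (d = 2 ∧ 6 ≤ w))
    (hb7 : 7 ≤ b) {a a' : ℕ × ℕ} (h : Near w b d a) (h' : Near w b d a') : Rel a a' := by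
  obtain ⟨h1, h2, h3⟩ := h
  obtain ⟨h1', h2', h3'⟩ := h'
  refine ⟨by omega, by omega, fun hf => ?_, fun hn hdv => ?_⟩
  · exfalso
    rcases hd with ⟨rfl, hw⟩ | ⟨rfl, hw⟩ | ⟨rfl, hw⟩
    · have := fac_gap (u := a.1) (by omega); omega
    · have := fac_gap (u := a.1) (by omega); omega
    · have := fac_six (u := a.1) (by omega); omega
  · rcases lt_trichotomy a.1 a'.1 with hlt | he | hlt
    · have h4 : a.2 ∣ a'.2 - a.2 := Nat.dvd_sub hdv dvd_rfl
      have h5 := Nat.le_of_dvd (by omega) h4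
      rcases hd with ⟨rfl, hw⟩ | ⟨rfl, hw⟩ | ⟨rfl, hw⟩ <;> omega
    · exact hn (he ▸ dvd_rfl)
    · have h5 := Nat.le_of_dvd (by rcases hd with ⟨rfl, hw⟩ | ⟨rfl, hw⟩ | ⟨rfl, hw⟩ <;> omega) hdv
      omega

/-- Pinned small element below. -/
theorem rel_pin {k : ℕ} {a : ℕ × ℕ} (h1 : k + 1 < a.1) (h2 : k ! ≠ a.1) (h3 : k ∣ a.2 → k ∣ a.1) :
    Rel (k, k) a :=
  ⟨fun h => by simp only at h; omega, fun h => by simp only at h; omega,
    fun h => absurd h h2, fun h hd => h (h3 hd)⟩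

theorem rel_pin_pin (k l : ℕ) : Rel (k, k) (l, l) := ⟨id, id, id, id⟩

/-- `a` below, `a'` close to a factorial `X !` with `a.1 ≤ X`, `a.2 ≤ Y`. -/
theorem rel_up {a a' : ℕ × ℕ} {X Y e : ℕ} (h0 : 1 ≤ a.1) (h1 : a.1 ≤ X) (h2 : a.2 ≤ Y)
    (he : Near (X !) (Y !) e a') (hXY : X ≤ Y) (h3 : e < a.2) (h4 : a.1 + 1 < a'.1)
    (hf : a.1 ! = a'.1 → a.2 ! = a'.2) : Rel a a' := by
  refine ⟨by omega, by omega, hf, fun hn hd => ?_⟩
  obtain ⟨e1, e2, e3⟩ := he
  have hd1 : a.1 ∣ X ! := Nat.dvd_factorial h0 h1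
  have hd2 : a.2 ∣ Y ! := Nat.dvd_factorial (by omega) h2
  have hXY' := Nat.factorial_le hXY
  rcases lt_trichotomy a'.1 (X !) with hlt | heq | hlt
  · have : a.2 ∣ (Y !) - a'.2 := Nat.dvd_sub hd2 hd
    have := Nat.le_of_dvd (by omega) this
    omega
  · exact hn (heq ▸ hd1)
  · have : a.2 ∣ a'.2 - Y ! := Nat.dvd_sub hd hd2
    have := Nat.le_of_dvd (by omega) this
    omega

/-- The factorials near `w !`. -/
theorem fac_near {u w : ℕ} (hw : 3 ≤ w) {z : ℕ} (h : u ! = z) (h1 : w ! ≤ z + 2)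
    (h2 : z ≤ w ! + 2) : u = w := by
  rcases lt_trichotomy u w with hlt | he | hlt
  · exfalso
    have h3 : (w - 1) ! * w = w ! := by
      rw [mul_comm]; exact Nat.mul_factorial_pred (by omega)
    have h4 : u ! ≤ (w - 1)! := Nat.factorial_le (by omega)
    have h5 : 2 ≤ (w - 1)! := by
      calc 2 = 2 ! := rfl
        _ ≤ _ := Nat.factorial_le (by omega)
    nlinarith
  · exact he
  · exfalso
    have h3 : (w + 1)! = (w + 1) * w ! := Nat.factorial_succ w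
    have h4 : (w + 1)! ≤ u ! := Nat.factorial_le hlt
    have h5 : 6 ≤ w ! := by
      calc 6 = 3 ! := rfl
        _ ≤ _ := Nat.factorial_le hw
    nlinarith

/-- A composite number `n ≥ 6` divides `(n - 2)!`. -/
theorem dvd_fac_of_composite {n : ℕ} (hn : 6 ≤ n) (hp : ¬ n.Prime) : n ∣ (n - 2)! := by
  obtain ⟨a, ha, ha1, ha2⟩ := Nat.exists_dvd_of_not_prime (by omega) hp
  obtain ⟨b, rfl⟩ := ha
  have hb0 : 0 < b := Nat.pos_of_ne_zero (by rintro rfl; simp at hn)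
  have ha0 : 0 < a := Nat.pos_of_ne_zero (by rintro rfl; simp at hn)
  have hb1 : b ≠ 1 := by rintro rfl; simp at ha2
  have key : ∀ {c d m : ℕ}, 0 < c → c < d → d ≤ m → c * d ∣ m ! := by
    intro c d m hc hcd hdm
    have h1 : c ∣ (d - 1)! := Nat.dvd_factorial hc (by omega)
    have h2 : c * d ∣ (d - 1)! * d := Nat.mul_dvd_mul_right h1 d
    rw [mul_comm ((d - 1)!) d, Nat.mul_factorial_pred (by omega)] at h2
    exact h2.trans (Nat.factorial_dvd_factorial hdm)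
  have ha' : 2 ≤ a := by omega
  have hb' : 2 ≤ b := by omega
  rcases lt_trichotomy a b with hlt | rfl | hlt
  · exact key ha0 hlt (by nlinarith [Nat.le_sub_of_add_le (show b + 2 ≤ a * b by nlinarith)])
  · have h3 : 3 ≤ a := by
      by_contra hc
      have : a = 2 := by omega
      subst this
      omega
    have h4 : a * (2 * a) ∣ (a * a - 2)! :=
      key ha0 (by omega) (Nat.le_sub_of_add_le (by nlinarith))
    exact (Nat.mul_dvd_mul_left a (Dvd.intro_left 2 rfl)).trans h4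
  · rw [mul_comm]
    exact key hb0 hlt (Nat.le_sub_of_add_le (by nlinarith))

theorem prime_of_not_dvd {n m : ℕ} (hn : 6 ≤ n) (hm : n ≤ m + 2) (h : ¬ n ∣ m !) : n.Prime := by
  by_contra hc
  exact h ((dvd_fac_of_composite hn hc).trans (Nat.factorial_dvd_factorial (by omega)))

end Pool.Agent.LibFSN
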