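import Mathlib
import Pool.Agent.LibFSN.Rel

/-!
The families of value sets that can be transported to infinity.
-/

set_option autoImplicit false

namespace Pool.Agent.LibFSN

open Nat Finset

theorem wilson {p : ℕ} (hp : (p + 1).Prime) : p + 1 ∣ p ! + 1 := by
  have : Fact (p + 1).Prime := ⟨hp⟩
  have h := ZMod.wilsons_lemma (p + 1)
  rw [Nat.add_sub_cancel] at h
  rw [← ZMod.natCast_eq_zero_iff]
  push_cast
  rw [h]
  ring

theorem not_dvd_fac_of_prime {p : ℕ} (hp : (p + 1).Prime) : ¬ p + 1 ∣ p ! := by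
  rw [hp.dvd_factorial]; omega

theorem dvd_fac_of_not_prime {p : ℕ} (h5 : 5 ≤ p) (hp : ¬ (p + 1).Prime) : p + 1 ∣ p ! :=
  (dvd_fac_of_composite (n := p + 1) (by omega) hp).trans (Nat.factorial_dvd_factorial (by omega))

theorem not_dvd_of_add {n x y : ℕ} (h : n ∣ x) (hy : y ≠ 0) (hn : y < n) : ¬ n ∣ x + y := by
  intro h'
  have := (Nat.dvd_add_right h).1 h'
  have := Nat.le_of_dvd (by omega) this
  omega

theorem not_dvd_of_sub {n x y : ℕ} (h : n ∣ x) (hy : y ≠ 0) (hn : y < n) (hxy : y ≤ x) :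
    ¬ n ∣ x - y := by
  intro h'
  have h1 : n ∣ x - (x - y) := Nat.dvd_sub h h'
  have := Nat.le_of_dvd (by omega) h1
  omega

/-- The element `w + 1` below a block around `w !`. -/
theorem rel_up1 {w b : ℕ} (hw : 4 ≤ w) (hb : 7 ≤ b) {a a' : ℕ × ℕ} (h1 : a.1 = w + 1)
    (h2 : a.2 = b + 1) (h : Near (w !) (b !) 1 a') (hp : (w + 1).Prime → (b + 1).Prime)
    (hp' : a'.1 = w ! ∨ (¬ (w + 1).Prime → ¬ (b + 1).Prime)) : Rel a a' := by
  obtain ⟨e1, e2, e3⟩ := h
  have g1 := fac_six hw
  have g2 := fac_six (u := b) (by omega)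
  refine ⟨by omega, by omega, fun hf => ?_, fun hn => ?_⟩
  · exfalso
    have := fac_near (w := w) (by omega) hf (by omega) (by omega)
    omega
  · rw [h1] at hn
    rw [h2]
    have hc : a'.1 = w ! ∨ a'.1 = w ! + 1 ∨ a'.1 = (w !) - 1 := by omega
    rcases hc with hc | hc | hc
    · have h3 : a'.2 = b ! := by omega
      rw [h3]
      apply not_dvd_fac_of_prime
      apply hp
      by_contra hc'
      have h4 : w ≠ 4 := by rintro rfl; norm_num at hc'
      exact hn (hc ▸ dvd_fac_of_not_prime (by omega) hc')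
    · have h3 : a'.2 = b ! + 1 := by omega
      rw [h3]
      have h4 : ¬ (w + 1).Prime := fun h => hn (hc ▸ wilson h)
      have h5 : ¬ (b + 1).Prime := by
        rcases hp' with h | h
        · omega
        · exact h h4
      exact not_dvd_of_add (dvd_fac_of_not_prime (by omega) h5) one_ne_zero (by omega)
    · have h3 : a'.2 = (b !) - 1 := by omega
      rw [h3]
      by_cases hbp : (b + 1).Prime
      · intro hd
        have h4 := Nat.dvd_sub (wilson hbp) hd
        have h5 : b ! + 1 - ((b !) - 1) = 2 := by omega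
        rw [h5] at h4
        have := Nat.le_of_dvd (by omega) h4
        omega
      · exact not_dvd_of_sub (dvd_fac_of_not_prime (by omega) hbp) one_ne_zero (by omega) (by omega)

theorem near_even {w b : ℕ} (h : w % 2 = b % 2) {d : ℕ} {a : ℕ × ℕ} (ha : Near w b d a) :
    2 ∣ a.2 → 2 ∣ a.1 := by
  obtain ⟨h1, -, -⟩ := ha
  omega

theorem fac_even {w : ℕ} (hw : 2 ≤ w) : w ! % 2 = 0 :=
  Nat.mod_eq_zero_of_dvd (Nat.dvd_factorial (by omega) hw)

theorem exists_b (w N : ℕ) (hw : 2 ≤ w) :
    ∃ b, w ≤ b ∧ N ≤ b ∧ 9 ≤ b ∧ w % 2 = b % 2 ∧ ((w + 1).Prime ↔ (b + 1).Prime) := by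
  by_cases hp : (w + 1).Prime
  · obtain ⟨p, hp1, hp2⟩ := Nat.exists_infinite_primes (w + N + 10)
    have h1 : (w + 1) % 2 = 1 := by
      rcases hp.eq_two_or_odd with h | h <;> omega
    have h2 : p % 2 = 1 := by
      rcases hp2.eq_two_or_odd with h | h <;> omega
    refine ⟨p - 1, by omega, by omega, by omega, by omega, ?_⟩
    rw [show p - 1 + 1 = p by omega]
    exact ⟨fun _ => hp2, fun _ => hp⟩
  · refine ⟨w + 2 * (w + 1) * (N + 9), by omega, by nlinarith, by nlinarith, ?_, ?_⟩
    · rw [mul_assoc]; omega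
    · refine ⟨fun h => absurd h hp, fun h => absurd h ?_⟩
      have : w + 2 * (w + 1) * (N + 9) + 1 = (w + 1) * (2 * (N + 9) + 1) := by ring
      rw [this]
      exact Nat.not_prime_mul (by omega) (by omega)

/-- Elements `1`, `2`, a block of radius 1 around `w` and a block of radius 1 around `w !`. -/
theorem t0a {V : Finset ℕ} {w : ℕ} (hw : 4 ≤ w) (hwV : w ∈ V) (h23 : w = 4 → 2 ∈ V → 3 ∉ V)
    (hV : ∀ u ∈ V, u = 1 ∨ u = 2 ∨ (w ≤ u + 1 ∧ u ≤ w + 1) ∨ (w ! ≤ u + 1 ∧ u ≤ w ! + 1)) (N : ℕ) :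
    Good V N := by
  obtain ⟨b, hb1, hb2, hb3, hb4, hb5⟩ := exists_b w N (by omega)
  have g1 := fac_six hw
  have g2 := fac_six (u := b) (by omega)
  have g3 : w ! ≤ b ! := Nat.factorial_le hb1
  have ew := fac_even (w := w) (by omega)
  have eb := fac_even (w := b) (by omega)
  refine ⟨fun a => a.1 ∈ V ∧ (a = (1, 1) ∨ a = (2, 2) ∨ Near w b 1 a ∨ Near (w !) (b !) 1 a),
    ?_, ?_, ?_, ⟨w, hwV, b, ⟨hwV, Or.inr (Or.inr (Or.inl ((near_self w b).mono (by omega))))⟩, hb2⟩⟩
  · rintro a a' ⟨haV, h | h | h | h⟩ ⟨haV', h' | h' | h' | h'⟩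
    · subst h; subst h'; exact rel_pin_pin _ _
    · subst h; subst h'; exact rel_pin_pin _ _
    · subst h
      exact rel_pin (by have := h'.2.1; omega) (by have := h'.2.1; simp; omega) (fun _ => one_dvd _)
    · subst h
      exact rel_pin (by have := h'.2.1; omega) (by have := h'.2.1; simp; omega) (fun _ => one_dvd _)
    · subst h; subst h'; exact rel_pin_pin _ _
    · subst h; subst h'; exact rel_pin_pin _ _
    · subst h
      have h3 : 3 < a'.1 := by
        by_contra hc
        have h31 : a'.1 = 3 := by have := h'.2.1; omega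
        exact h23 (by have := h'.2.1; omega) haV (h31 ▸ haV')
      exact rel_pin (by omega) (by simp; omega) (near_even hb4 h')
    · subst h
      exact rel_pin (by have := h'.2.1; omega) (by have := h'.2.1; simp; omega)
        (near_even (by omega) h')
    · subst h'
      obtain ⟨h1, h2, h3⟩ := h
      exact rel_down (by simp only; omega) (by simp only; omega) (by simp)
    · subst h'
      obtain ⟨h1, h2, h3⟩ := h
      exact rel_down (by simp only; omega) (by simp only; omega) (by simp)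
    · exact near_near (Or.inr (Or.inl ⟨rfl, hw⟩)) (by omega) h h'
    · by_cases ha : a.1 ≤ w
      · obtain ⟨h1, h2, h3⟩ := h
        refine rel_up (X := w) (Y := b) (by omega) ha (by omega) h' hb1 (by omega)
          (by have := h'.2.1; omega) (fun hf => ?_)
        have hw' : a.1 = w := by
          have := h'.2
          exact fac_near (by omega) hf (by omega) (by omega)
        have hb' : a.2 = b := by omega
        rw [hb']
        rw [hw'] at hf
        have := h'.1
        omega
      · obtain ⟨h1, h2, h3⟩ := h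
        exact rel_up1 hw (by omega) (by omega) (by omega) h' hb5.1 (Or.inr (mt hb5.2))
    · subst h'
      obtain ⟨h1, h2, h3⟩ := h
      exact rel_down (by simp only; omega) (by simp only; omega) (by simp)
    · subst h'
      obtain ⟨h1, h2, h3⟩ := h
      exact rel_down (by simp only; omega) (by simp only; omega) (by simp)
    · obtain ⟨h1, h2, h3⟩ := h
      obtain ⟨h1', h2', h3'⟩ := h'
      exact rel_down (by omega) (by omega) (by omega)
    · exact near_near (Or.inr (Or.inl ⟨rfl, by omega⟩)) (by omega) h h'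
  · rintro a ⟨-, h | h | h | h⟩
    · subst h; simp
    · subst h; simp
    · obtain ⟨h1, h2, h3⟩ := h; omega
    · obtain ⟨h1, h2, h3⟩ := h; omega
  · intro u hu
    rcases hV u hu with h | h | h | h
    · exact ⟨1, hu, Or.inl (by rw [h])⟩
    · exact ⟨2, hu, Or.inr (Or.inl (by rw [h]))⟩
    · exact ⟨u + b - w, hu, Or.inr (Or.inr (Or.inl ⟨by simp only; omega, h.1, h.2⟩))⟩
    · exact ⟨u + (b !) - (w !), hu, Or.inr (Or.inr (Or.inr ⟨by simp only; omega, h.1, h.2⟩))⟩

end Pool.Agent.LibFSN
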