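import Mathlib
import Pool.Agent.LibFSN.Types

/-!
The remaining families of value sets.
-/

set_option autoImplicit false

namespace Pool.Agent.LibFSN

open Nat Finset

/-- `a` is below the factorial `X !` of an `X ≥ a.1`, and `a.1 ! ≠ X !`. -/
theorem rel_fac {a : ℕ × ℕ} {X Y : ℕ} (h0 : 1 ≤ a.1) (h1 : a.1 ≤ X) (h2 : a.2 ≤ Y) (hXY : X ≤ Y)
    (h3 : 1 ≤ a.2) (h4 : a.1 + 1 < X !) (hf : a.1 ! = X ! → a.2 ! = Y !) :
    Rel a (X !, Y !) :=
  rel_up (e := 0) h0 h1 h2 (near_self _ _) hXY (by omega) h4 hf

theorem rel_self (a : ℕ × ℕ) (h : 3 ≤ a.1) : Rel a a := by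
  have := fac_gap h
  exact ⟨fun _ => rfl, by omega, by omega, fun hn => absurd dvd_rfl hn⟩

/-- The chain relation `q, q !`. -/
theorem rel_chain {q c : ℕ} (hq : 3 ≤ q) (hc : q ≤ c) : Rel (q, c) (q !, c !) := by
  have := fac_gap hq
  exact rel_fac (by simp only; omega) le_rfl le_rfl hc (by simp only; omega) (by simp only; omega)
    (fun _ => rfl)

/-- Two below a factorial. -/
theorem rel_chain2 {q c X Y : ℕ} (hq : 3 ≤ q) (hc : q ≤ c) (hqX : q < X) (hcY : c ≤ Y)
    (hXY : X ≤ Y) : Rel (q, c) (X !, Y !) := by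
  have := fac_gap (u := X) (by omega)
  refine rel_fac (by simp only; omega) (by simp only; omega) hcY hXY (by simp only; omega)
    (by simp only; omega) (fun h => ?_)
  have h5 := Nat.factorial_lt (n := q) (m := X) (by omega)
  simp only at h
  omega

theorem rel_down' {q c X Y : ℕ} (h1 : q < X) (h2 : c < Y) (h3 : 1 ≤ c) : Rel (X, Y) (q, c) :=
  rel_down (a := (q, c)) (b := (X, Y)) h1 h2 h3

/-- A block of radius 2 around `w`, and `w !`. -/
theorem t0b {V : Finset ℕ} {w : ℕ} (hw : 6 ≤ w) (hwV : w ∈ V)
    (hV : ∀ u ∈ V, (w ≤ u + 2 ∧ u ≤ w + 2) ∨ u = w !) (N : ℕ) : Good V N := by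
  have hbx : ∃ b, w ≤ b ∧ N ≤ b ∧ 9 ≤ b ∧ ((w + 1).Prime → (b + 1).Prime) ∧
      ((w + 2).Prime → (b + 2).Prime) := by
    by_cases hp : (w + 1).Prime
    · have h2 : ¬ (w + 2).Prime := by
        intro h
        rcases hp.eq_two_or_odd with h' | h' <;> rcases h.eq_two_or_odd with h'' | h'' <;> omega
      obtain ⟨p, hp1, hp2⟩ := Nat.exists_infinite_primes (w + N + 10)
      refine ⟨p - 1, by omega, by omega, by omega, fun _ => ?_, fun h => absurd h h2⟩
      rwa [show p - 1 + 1 = p by omega]
    · obtain ⟨p, hp1, hp2⟩ := Nat.exists_infinite_primes (w + N + 11)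
      refine ⟨p - 2, by omega, by omega, by omega, fun h => absurd h hp, fun _ => ?_⟩
      rwa [show p - 2 + 2 = p by omega]
  obtain ⟨b, hb1, hb2, hb3, hb4, hb5⟩ := hbx
  have g1 := fac_six (u := w) (by omega)
  have g2 := fac_six (u := b) (by omega)
  refine ⟨fun a => Near w b 2 a ∨ a = (w !, b !), ?_, ?_, ?_,
    ⟨w, hwV, b, Or.inl ((near_self w b).mono (by omega)), hb2⟩⟩
  · rintro a a' (h | h) (h' | h')
    · exact near_near (Or.inr (Or.inr ⟨rfl, hw⟩)) (by omega) h h'
    · subst h'
      obtain ⟨h1, h2, h3⟩ := h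
      by_cases ha : a.1 ≤ w
      · refine rel_fac (by omega) ha (by omega) hb1 (by omega) (by omega) (fun hf => ?_)
        have hw' : a.1 = w := fac_near (by omega) hf (by omega) (by omega)
        have hb' : a.2 = b := by omega
        rw [hb']
      · refine ⟨fun h => ?_, fun h => ?_, fun h => ?_, fun h => ?_⟩
        · simp only at h; omega
        · simp only at h; omega
        · simp only at h
          have : a.1 = w := fac_near (by omega) h (by omega) (by omega)
          omega
        · simp only at h ⊢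
          rcases (show a.1 = w + 1 ∨ a.1 = w + 2 by omega) with hc | hc
          · rw [hc] at h
            have hb' : a.2 = b + 1 := by omega
            rw [hb']
            exact not_dvd_fac_of_prime (hb4 (prime_of_not_dvd (by omega) (by omega) h))
          · rw [hc] at h
            have hb' : a.2 = b + 2 := by omega
            rw [hb']
            have := hb5 (prime_of_not_dvd (by omega) (by omega) h)
            rw [this.dvd_factorial]
            omega
    · subst h
      obtain ⟨h1, h2, h3⟩ := h'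
      exact rel_down (by simp only; omega) (by simp only; omega) (by omega)
    · subst h; subst h'
      exact rel_self _ (by simp only; omega)
  · rintro a (⟨h1, h2, h3⟩ | h)
    · omega
    · subst h; simp only; omega
  · intro u hu
    rcases hV u hu with h | h
    · exact ⟨u + b - w, Or.inl ⟨by simp only; omega, h.1, h.2⟩⟩
    · exact ⟨b !, Or.inr (by rw [h])⟩

/-- `w` and a block of radius `e` around `w !`. -/
theorem t0c {V : Finset ℕ} {w e : ℕ} (hw : 3 ≤ w) (he : e = 1 ∨ (e = 2 ∧ 4 ≤ w)) (hwV : w ∈ V)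
    (hV : ∀ u ∈ V, u = w ∨ (w ! ≤ u + e ∧ u ≤ w ! + e)) (N : ℕ) : Good V N := by
  obtain ⟨b, hb1, hb2, hb3⟩ : ∃ b, w ≤ b ∧ N ≤ b ∧ 9 ≤ b := ⟨w + N + 9, by omega, by omega, by omega⟩
  have g1 := fac_gap hw
  have g3 : 4 ≤ w → 6 * w ≤ w ! := fac_six
  have g2 := fac_six (u := b) (by omega)
  have g4 : w ! ≤ b ! := Nat.factorial_le hb1
  refine ⟨fun a => a = (w, b) ∨ Near (w !) (b !) e a, ?_, ?_, ?_,
    ⟨w, hwV, b, Or.inl rfl, hb2⟩⟩
  · rintro a a' (h | h) (h' | h')
    · subst h; subst h'; exact rel_self _ hw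
    · subst h
      refine rel_up (X := w) (Y := b) (by simp only; omega) le_rfl le_rfl h' hb1
        (by simp only; omega) (by have := h'.2.1; simp only; omega) (fun hf => ?_)
      have := h'.1
      simp only at hf ⊢
      omega
    · subst h'
      obtain ⟨h1, h2, h3⟩ := h
      exact rel_down (by simp only; omega) (by simp only; omega) (by simp only; omega)
    · refine near_near ?_ (by omega) h h'
      rcases he with rfl | ⟨rfl, h4⟩
      · exact Or.inr (Or.inl ⟨rfl, by omega⟩)
      · exact Or.inr (Or.inr ⟨rfl, by omega⟩)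
  · rintro a (h | ⟨h1, h2, h3⟩)
    · subst h; simp only; omega
    · omega
  · intro u hu
    rcases hV u hu with h | h
    · exact ⟨b, Or.inl (by rw [h])⟩
    · exact ⟨u + (b !) - (w !), Or.inr ⟨by simp only; omega, h.1, h.2⟩⟩

/-- `2`, `3`, `w`, `w !`. -/
theorem t0d {V : Finset ℕ} {w : ℕ} (hw : 7 ≤ w) (hwV : w ∈ V)
    (hV : ∀ u ∈ V, u = 2 ∨ u = 3 ∨ u = w ∨ u = w !) (N : ℕ) : Good V N := by
  obtain ⟨b, hb1, hb2, hb3, hb4⟩ : ∃ b, w ≤ b ∧ N ≤ b ∧ 9 ≤ b ∧ b % 6 = w % 6 :=
    ⟨w + 6 * (N + 9), by omega, by omega, by omega, by omega⟩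
  have g1 := fac_six (u := w) (by omega)
  have g2 := fac_six (u := b) (by omega)
  have g4 : w ! ≤ b ! := Nat.factorial_le hb1
  have ew : w ! % 6 = 0 := Nat.mod_eq_zero_of_dvd (Nat.dvd_factorial (by omega) (by omega))
  have eb : b ! % 6 = 0 := Nat.mod_eq_zero_of_dvd (Nat.dvd_factorial (by omega) (by omega))
  have f3 : (3 : ℕ)! = 6 := rfl
  refine ⟨fun a => a = (2, 2) ∨ a = (3, 3) ∨ a = (w, b) ∨ a = (w !, b !), ?_, ?_, ?_,
    ⟨w, hwV, b, Or.inr (Or.inr (Or.inl rfl)), hb2⟩⟩
  · rintro a a' (h | h | h | h) (h' | h' | h' | h') <;> subst h <;> subst h'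
    · exact rel_pin_pin _ _
    · exact rel_pin_pin _ _
    · exact rel_pin (by simp only; omega) (by simp; omega) (by simp only; omega)
    · exact rel_pin (by simp only; omega) (by simp; omega) (by simp only; omega)
    · exact rel_pin_pin _ _
    · exact rel_pin_pin _ _
    · exact rel_pin (by simp only; omega) (by simp only; omega) (by simp only; omega)
    · exact rel_pin (by simp only; omega) (by simp only; omega) (by simp only; omega)
    · exact rel_down' (by omega) (by omega) (by omega)
    · exact rel_down' (by omega) (by omega) (by omega)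
    · exact rel_self _ (by simp only; omega)
    · exact rel_chain (by omega) hb1
    · exact rel_down' (by omega) (by omega) (by omega)
    · exact rel_down' (by omega) (by omega) (by omega)
    · exact rel_down' (by omega) (by omega) (by omega)
    · exact rel_self _ (by simp only; omega)
  · rintro a (h | h | h | h) <;> subst h <;> simp only <;> omega
  · intro u hu
    rcases hV u hu with h | h | h | h
    · exact ⟨2, Or.inl (by rw [h])⟩
    · exact ⟨3, Or.inr (Or.inl (by rw [h]))⟩
    · exact ⟨b, Or.inr (Or.inr (Or.inl (by rw [h])))⟩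
    · exact ⟨b !, Or.inr (Or.inr (Or.inr (by rw [h])))⟩

/-- `1`, `2`, `q`, `q !`, `(q !) !`. -/
theorem t1p {V : Finset ℕ} {q : ℕ} (hq : 3 ≤ q) (hqV : q ∈ V) (h2 : 2 ∈ V → 4 ≤ q)
    (hV : ∀ u ∈ V, u = 1 ∨ u = 2 ∨ u = q ∨ u = q ! ∨ u = (q !)!) (N : ℕ) : Good V N := by
  obtain ⟨c, hc1, hc2, hc3, hc4⟩ : ∃ c, q ≤ c ∧ N ≤ c ∧ 9 ≤ c ∧ c % 2 = q % 2 :=
    ⟨q + 2 * (N + 9), by omega, by omega, by omega, by omega⟩
  have g1 := fac_gap hq
  have g2 := fac_six (u := c) (by omega)
  have g3 := fac_six (u := q !) (by omega)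
  have g4 := fac_six (u := c !) (by omega)
  have g5 : q ! ≤ c ! := Nat.factorial_le hc1
  have g6 : (q !)! ≤ (c !)! := Nat.factorial_le g5
  have e1 := fac_even (w := q) (by omega)
  have e2 := fac_even (w := c) (by omega)
  have e3 := fac_even (w := q !) (by omega)
  have e4 := fac_even (w := c !) (by omega)
  refine ⟨fun a => a = (1, 1) ∨ (a = (2, 2) ∧ 4 ≤ q) ∨ a = (q, c) ∨ a = (q !, c !) ∨
    a = ((q !)!, (c !)!), ?_, ?_, ?_, ⟨q, hqV, c, Or.inr (Or.inr (Or.inl rfl)), hc2⟩⟩
  · rintro a a' (h | ⟨h, hq4⟩ | h | h | h) (h' | ⟨h', hq4'⟩ | h' | h' | h') <;> subst h <;> subst h'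
    · exact rel_pin_pin _ _
    · exact rel_pin_pin _ _
    · exact rel_pin (by simp only; omega) (by simp; omega) (fun _ => one_dvd _)
    · exact rel_pin (by simp only; omega) (by simp only [Nat.factorial_one]; omega) (fun _ => one_dvd _)
    · exact rel_pin (by simp only; omega) (by simp only [Nat.factorial_one]; omega) (fun _ => one_dvd _)
    · exact rel_pin_pin _ _
    · exact rel_pin_pin _ _
    · exact rel_pin (by simp only; omega) (by simp only [Nat.factorial_two]; omega)
        (by simp only; omega)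
    · exact rel_pin (by simp only; omega) (by simp only [Nat.factorial_two]; omega)
        (by simp only; omega)
    · exact rel_pin (by simp only; omega) (by simp only [Nat.factorial_two]; omega)
        (by simp only; omega)
    · exact rel_down' (by omega) (by omega) (by omega)
    · exact rel_down' (by omega) (by omega) (by omega)
    · exact rel_self _ (by simp only; omega)
    · exact rel_chain (by omega) hc1
    · exact rel_chain2 hq hc1 (by omega) (by omega) g5
    · exact rel_down' (by omega) (by omega) (by omega)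
    · exact rel_down' (by omega) (by omega) (by omega)
    · exact rel_down' (by omega) (by omega) (by omega)
    · exact rel_self _ (by simp only; omega)
    · exact rel_chain (by omega) g5
    · exact rel_down' (by omega) (by omega) (by omega)
    · exact rel_down' (by omega) (by omega) (by omega)
    · exact rel_down' (by omega) (by omega) (by omega)
    · exact rel_down' (by omega) (by omega) (by omega)
    · exact rel_self _ (by simp only; omega)
  · rintro a (h | ⟨h, -⟩ | h | h | h) <;> subst h <;> simp only <;> omega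
  · intro u hu
    rcases hV u hu with h | h | h | h | h
    · exact ⟨1, Or.inl (by rw [h])⟩
    · exact ⟨2, Or.inr (Or.inl ⟨by rw [h], h2 (h ▸ hu)⟩)⟩
    · exact ⟨c, Or.inr (Or.inr (Or.inl (by rw [h])))⟩
    · exact ⟨c !, Or.inr (Or.inr (Or.inr (Or.inl (by rw [h]))))⟩
    · exact ⟨(c !)!, Or.inr (Or.inr (Or.inr (Or.inr (by rw [h]))))⟩

/-- A block of radius 1 around `q`, `q !`, `(q !) !`. -/
theorem t1q {V : Finset ℕ} {q : ℕ} (hq : 4 ≤ q) (hqV : q ∈ V)
    (hV : ∀ u ∈ V, (q ≤ u + 1 ∧ u ≤ q + 1) ∨ u = q ! ∨ u = (q !)!) (N : ℕ) : Good V N := by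
  obtain ⟨c, hc1, hc2, hc3, -, hc5⟩ := exists_b q N (by omega)
  have g1 := fac_six hq
  have g2 := fac_six (u := c) (by omega)
  have g3 := fac_six (u := q !) (by omega)
  have g4 := fac_six (u := c !) (by omega)
  have g5 : q ! ≤ c ! := Nat.factorial_le hc1
  refine ⟨fun a => Near q c 1 a ∨ a = (q !, c !) ∨ a = ((q !)!, (c !)!), ?_, ?_, ?_,
    ⟨q, hqV, c, Or.inl ((near_self q c).mono (by omega)), hc2⟩⟩
  · rintro a a' (h | h | h) (h' | h' | h')
    · exact near_near (Or.inr (Or.inl ⟨rfl, hq⟩)) (by omega) h h'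
    · subst h'
      obtain ⟨h1, h2, h3⟩ := h
      by_cases ha : a.1 ≤ q
      · refine rel_fac (by omega) ha (by omega) hc1 (by omega) (by omega) (fun hf => ?_)
        have hw' : a.1 = q := fac_near (by omega) hf (by omega) (by omega)
        have hb' : a.2 = c := by omega
        rw [hb']
      · exact rel_up1 hq (by omega) (by omega) (by omega) ((near_self _ _).mono (by omega)) hc5.1
          (Or.inl rfl)
    · subst h'
      obtain ⟨h1, h2, h3⟩ := h
      refine rel_fac (by omega) (by omega) (by omega) g5 (by omega) (by omega) (fun hf => ?_)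
      have hw' : a.1 = q ! := fac_near (by omega) hf (by omega) (by omega)
      omega
    · subst h
      obtain ⟨h1, h2, h3⟩ := h'
      exact rel_down (by simp only; omega) (by simp only; omega) (by omega)
    · subst h; subst h'; exact rel_self _ (by simp only; omega)
    · subst h; subst h'; exact rel_chain (by omega) g5
    · subst h
      obtain ⟨h1, h2, h3⟩ := h'
      exact rel_down (by simp only; omega) (by simp only; omega) (by omega)
    · subst h; subst h'; exact rel_down' (by omega) (by omega) (by omega)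
    · subst h; subst h'; exact rel_self _ (by simp only; omega)
  · rintro a (⟨h1, h2, h3⟩ | h | h)
    · omega
    · subst h; simp only; omega
    · subst h; simp only; omega
  · intro u hu
    rcases hV u hu with h | h | h
    · exact ⟨u + c - q, Or.inl ⟨by simp only; omega, h.1, h.2⟩⟩
    · exact ⟨c !, Or.inr (Or.inl (by rw [h]))⟩
    · exact ⟨(c !)!, Or.inr (Or.inr (by rw [h]))⟩

/-- `q`, a block of radius 1 around `q !`, `(q !) !`. -/
theorem t1t {V : Finset ℕ} {q : ℕ} (hq : 3 ≤ q) (hqV : q ∈ V)
    (hV : ∀ u ∈ V, u = q ∨ (q ! ≤ u + 1 ∧ u ≤ q ! + 1) ∨ u = (q !)!)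
    (H : (q ! + 1).Prime → {m : ℕ | (m ! + 1).Prime}.Infinite) (N : ℕ) : Good V N := by
  have hcx : ∃ c, q ≤ c ∧ N ≤ c ∧ 9 ≤ c ∧ ((q ! + 1).Prime → (c ! + 1).Prime) := by
    by_cases hp : (q ! + 1).Prime
    · obtain ⟨c, hc1, hc2⟩ := (H hp).exists_gt (q + N + 9)
      exact ⟨c, by omega, by omega, by omega, fun _ => hc1⟩
    · exact ⟨q + N + 9, by omega, by omega, by omega, fun h => absurd h hp⟩
  obtain ⟨c, hc1, hc2, hc3, hc5⟩ := hcx
  have g1 := fac_gap hq
  have g2 := fac_six (u := c) (by omega)
  have g3 := fac_six (u := q !) (by omega)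
  have g4 := fac_six (u := c !) (by omega)
  have g5 : q ! ≤ c ! := Nat.factorial_le hc1
  have g7 : 4 ≤ q → 6 * q ≤ q ! := fac_six
  refine ⟨fun a => a = (q, c) ∨ Near (q !) (c !) 1 a ∨ a = ((q !)!, (c !)!), ?_, ?_, ?_,
    ⟨q, hqV, c, Or.inl rfl, hc2⟩⟩
  · rintro a a' (h | h | h) (h' | h' | h')
    · subst h; subst h'; exact rel_self _ (by simp only; omega)
    · subst h
      refine rel_up (X := q) (Y := c) (by simp only; omega) le_rfl le_rfl h' hc1
        (by simp only; omega) (by have := h'.2.1; simp only; omega) (fun hf => ?_)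
      have := h'.1
      simp only at hf ⊢
      omega
    · subst h; subst h'; exact rel_chain2 hq hc1 (by omega) (by omega) g5
    · subst h'
      obtain ⟨h1, h2, h3⟩ := h
      exact rel_down (by simp only; omega) (by simp only; omega) (by simp only; omega)
    · exact near_near (Or.inr (Or.inl ⟨rfl, by omega⟩)) (by omega) h h'
    · subst h'
      obtain ⟨h1, h2, h3⟩ := h
      by_cases ha : a.1 ≤ (q !)
      · refine rel_fac (by omega) ha (by omega) g5 (by omega) (by omega) (fun hf => ?_)
        have hw' : a.1 = q ! := fac_near (by omega) hf (by omega) (by omega)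
        have hb' : a.2 = c ! := by omega
        rw [hb']
      · exact rel_up1 (by omega) (by omega) (by omega) (by omega) ((near_self _ _).mono (by omega))
          hc5 (Or.inl rfl)
    · subst h; subst h'; exact rel_down' (by omega) (by omega) (by omega)
    · subst h
      obtain ⟨h1, h2, h3⟩ := h'
      exact rel_down (by simp only; omega) (by simp only; omega) (by omega)
    · subst h; subst h'; exact rel_self _ (by simp only; omega)
  · rintro a (h | ⟨h1, h2, h3⟩ | h)
    · subst h; simp only; omega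
    · omega
    · subst h; simp only; omega
  · intro u hu
    rcases hV u hu with h | h | h
    · exact ⟨c, Or.inl (by rw [h])⟩
    · exact ⟨u + (c !) - (q !), Or.inr (Or.inl ⟨by simp only; omega, h.1, h.2⟩)⟩
    · exact ⟨(c !)!, Or.inr (Or.inr (by rw [h]))⟩

/-- `q`, `q !`, a block of radius 1 around `(q !) !`. -/
theorem t1r {V : Finset ℕ} {q : ℕ} (hq : 3 ≤ q) (hqV : q ∈ V)
    (hV : ∀ u ∈ V, u = q ∨ u = q ! ∨ ((q !)! ≤ u + 1 ∧ u ≤ (q !)! + 1)) (N : ℕ) : Good V N := by
  obtain ⟨c, hc1, hc2, hc3⟩ : ∃ c, q ≤ c ∧ N ≤ c ∧ 9 ≤ c := ⟨q + N + 9, by omega, by omega, by omega⟩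
  have g1 := fac_gap hq
  have g2 := fac_six (u := c) (by omega)
  have g3 := fac_six (u := q !) (by omega)
  have g4 := fac_six (u := c !) (by omega)
  have g5 : q ! ≤ c ! := Nat.factorial_le hc1
  have g6 : (q !)! ≤ (c !)! := Nat.factorial_le g5
  refine ⟨fun a => a = (q, c) ∨ a = (q !, c !) ∨ Near ((q !)!) ((c !)!) 1 a, ?_, ?_, ?_,
    ⟨q, hqV, c, Or.inl rfl, hc2⟩⟩
  · rintro a a' (h | h | h) (h' | h' | h')
    · subst h; subst h'; exact rel_self _ (by simp only; omega)
    · subst h; subst h'; exact rel_chain hq hc1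
    · subst h
      obtain ⟨h1, h2, h3⟩ := id h'
      refine rel_up (X := q !) (Y := c !) (by simp only; omega) (by simp only; omega)
        (by simp only; omega) h' g5 (by simp only; omega) (by simp only; omega) (fun hf => ?_)
      have := fac_near (w := q !) (by omega) hf (by omega) (by omega)
      omega
    · subst h; subst h'; exact rel_down' (by omega) (by omega) (by omega)
    · subst h; subst h'; exact rel_self _ (by simp only; omega)
    · subst h
      obtain ⟨h1, h2, h3⟩ := id h'
      refine rel_up (X := q !) (Y := c !) (by simp only; omega) (by simp only; omega)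
        (by simp only; omega) h' g5 (by simp only; omega) (by simp only; omega) (fun hf => ?_)
      simp only at hf ⊢
      omega
    · subst h'
      obtain ⟨h1, h2, h3⟩ := h
      exact rel_down (by simp only; omega) (by simp only; omega) (by simp only; omega)
    · subst h'
      obtain ⟨h1, h2, h3⟩ := h
      exact rel_down (by simp only; omega) (by simp only; omega) (by simp only; omega)
    · exact near_near (Or.inr (Or.inl ⟨rfl, by omega⟩)) (by omega) h h'
  · rintro a (h | h | ⟨h1, h2, h3⟩)
    · subst h; simp only; omega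
    · subst h; simp only; omega
    · omega
  · intro u hu
    rcases hV u hu with h | h | h
    · exact ⟨c, Or.inl (by rw [h])⟩
    · exact ⟨c !, Or.inr (Or.inl (by rw [h]))⟩
    · exact ⟨u + ((c !)!) - ((q !)!), Or.inr (Or.inr ⟨by simp only; omega, h.1, h.2⟩)⟩

/-- `q`, `q !`, `w = q ! ± 1`, `w !`. -/
theorem t1b {V : Finset ℕ} {q w : ℕ} (hq : 3 ≤ q) (hqV : q ∈ V) (hw : w = q ! + 1 ∨ w + 1 = q !)
    (hw6 : 6 ≤ w) (hV : ∀ u ∈ V, u = q ∨ u = q ! ∨ u = w ∨ u = w !) (N : ℕ) : Good V N := by
  obtain ⟨c, hc1, hc2, hc3⟩ : ∃ c, q ≤ c ∧ N ≤ c ∧ 9 ≤ c := ⟨q + N + 9, by omega, by omega, by omega⟩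
  have g1 := fac_gap hq
  have g2 := fac_six (u := c) (by omega)
  have g5 : q ! ≤ c ! := Nat.factorial_le hc1
  obtain ⟨x, hx⟩ : ∃ x, w + c ! = x + q ! := ⟨w + (c !) - (q !), by omega⟩
  have hwx : w ≤ x := by omega
  have g3 := fac_six (u := w) (by omega)
  have g4 := fac_six (u := x) (by omega)
  have g6 : w ! ≤ x ! := Nat.factorial_le hwx
  have g7 : 4 ≤ q → 6 * q ≤ q ! := fac_six
  have g8 : q < 4 → q ! = 6 := fun h => by rw [show q = 3 by omega]; rfl
  have nT : ∀ {a : ℕ × ℕ}, a = (q !, c !) ∨ a = (w, x) → Near (q !) (c !) 1 a := by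
    rintro a (h | h) <;> subst h
    · exact (near_self _ _).mono (by omega)
    · exact ⟨by simp only; omega, by simp only; omega, by simp only; omega⟩
  have rQT : ∀ {a : ℕ × ℕ}, a = (q !, c !) ∨ a = (w, x) → Rel (q, c) a := by
    intro a ha
    have hn := nT ha
    refine rel_up (X := q) (Y := c) (by simp only; omega) le_rfl le_rfl hn hc1
      (by simp only; omega) (by rcases ha with h | h <;> subst h <;> simp only <;> omega)
      (fun hf => ?_)
    have := hn.1
    simp only at hf ⊢
    omega
  refine ⟨fun a => a = (q, c) ∨ a = (q !, c !) ∨ a = (w, x) ∨ a = (w !, x !), ?_, ?_, ?_,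
    ⟨q, hqV, c, Or.inl rfl, hc2⟩⟩
  · rintro a a' (h | h | h | h) (h' | h' | h' | h') <;> try subst h <;> try subst h'
    · exact rel_self _ (by simp only; omega)
    · exact rQT (Or.inl rfl)
    · exact rQT (Or.inr rfl)
    · exact rel_chain2 hq hc1 (by omega) (by omega) hwx
    · exact rel_down' (by omega) (by omega) (by omega)
    · exact rel_self _ (by simp only; omega)
    · exact near_near (Or.inr (Or.inl ⟨rfl, by omega⟩)) (by omega) (nT (Or.inl rfl)) (nT (Or.inr rfl))
    · rcases hw with hw | hw
      · exact rel_chain2 (by omega) g5 (by omega) (by omega) hwx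
      · refine ⟨fun h => ?_, fun h => ?_, fun h => ?_, fun h => ?_⟩
        · simp only at h; omega
        · simp only at h; omega
        · simp only at h
          have : q ! = w := fac_near (by omega) h (by omega) (by omega)
          omega
        · exfalso
          simp only at h
          rw [← hw] at h
          have h1 := prime_of_not_dvd (by omega) (by omega) h
          have h2 := fac_even (w := q) (by omega)
          rcases h1.eq_two_or_odd with h3 | h3 <;> omega
    · exact rel_down' (by omega) (by omega) (by omega)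
    · exact near_near (Or.inr (Or.inl ⟨rfl, by omega⟩)) (by omega) (nT (Or.inr rfl)) (nT (Or.inl rfl))
    · exact rel_self _ (by simp only; omega)
    · exact rel_chain (by omega) hwx
    · exact rel_down' (by omega) (by omega) (by omega)
    · exact rel_down' (by omega) (by omega) (by omega)
    · exact rel_down' (by omega) (by omega) (by omega)
    · exact rel_self _ (by simp only; omega)
  · rintro a (h | h | h | h) <;> subst h <;> simp only <;> omega
  · intro u hu
    rcases hV u hu with h | h | h | h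
    · exact ⟨c, Or.inl (by rw [h])⟩
    · exact ⟨c !, Or.inr (Or.inl (by rw [h]))⟩
    · exact ⟨x, Or.inr (Or.inr (Or.inl (by rw [h])))⟩
    · exact ⟨x !, Or.inr (Or.inr (Or.inr (by rw [h])))⟩

/-- A chain of four. -/
theorem t1c {V : Finset ℕ} {q : ℕ} (hq : 3 ≤ q) (hqV : q ∈ V)
    (hV : ∀ u ∈ V, u = q ∨ u = q ! ∨ u = (q !)! ∨ u = ((q !)!)!) (N : ℕ) : Good V N := by
  obtain ⟨c, hc1, hc2, hc3⟩ : ∃ c, q ≤ c ∧ N ≤ c ∧ 9 ≤ c := ⟨q + N + 9, by omega, by omega, by omega⟩
  have g1 := fac_gap hq
  have g2 := fac_six (u := c) (by omega)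
  have g3 := fac_six (u := q !) (by omega)
  have g4 := fac_six (u := c !) (by omega)
  have g5 : q ! ≤ c ! := Nat.factorial_le hc1
  have g6 : (q !)! ≤ (c !)! := Nat.factorial_le g5
  have g7 := fac_six (u := (q !)!) (by omega)
  have g8 := fac_six (u := (c !)!) (by omega)
  refine ⟨fun a => a = (q, c) ∨ a = (q !, c !) ∨ a = ((q !)!, (c !)!) ∨
    a = (((q !)!)!, ((c !)!)!), ?_, ?_, ?_, ⟨q, hqV, c, Or.inl rfl, hc2⟩⟩
  · rintro a a' (h | h | h | h) (h' | h' | h' | h') <;> subst h <;> subst h'
    · exact rel_self _ (by simp only; omega)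
    · exact rel_chain hq hc1
    · exact rel_chain2 hq hc1 (by omega) (by omega) g5
    · exact rel_chain2 hq hc1 (by omega) (by omega) g6
    · exact rel_down' (by omega) (by omega) (by omega)
    · exact rel_self _ (by simp only; omega)
    · exact rel_chain (by omega) g5
    · exact rel_chain2 (by omega) g5 (by omega) (by omega) g6
    · exact rel_down' (by omega) (by omega) (by omega)
    · exact rel_down' (by omega) (by omega) (by omega)
    · exact rel_self _ (by simp only; omega)
    · exact rel_chain (by omega) g6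
    · exact rel_down' (by omega) (by omega) (by omega)
    · exact rel_down' (by omega) (by omega) (by omega)
    · exact rel_down' (by omega) (by omega) (by omega)
    · exact rel_self _ (by simp only; omega)
  · rintro a (h | h | h | h) <;> subst h <;> simp only <;> omega
  · intro u hu
    rcases hV u hu with h | h | h | h
    · exact ⟨c, Or.inl (by rw [h])⟩
    · exact ⟨c !, Or.inr (Or.inl (by rw [h]))⟩
    · exact ⟨(c !)!, Or.inr (Or.inr (Or.inl (by rw [h])))⟩
    · exact ⟨((c !)!)!, Or.inr (Or.inr (Or.inr (by rw [h])))⟩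

/-- `p`, `p + 1`, `p !`, `(p + 1) !`. -/
theorem t2 {V : Finset ℕ} {p : ℕ} (hp : 5 ≤ p) (hpV : p ∈ V)
    (hV : ∀ u ∈ V, u = p ∨ u = p + 1 ∨ u = p ! ∨ u = (p + 1)!) (N : ℕ) : Good V N := by
  obtain ⟨c, hc1, hc2, hc3, -, hc5⟩ := exists_b p N (by omega)
  have g1 := fac_six (u := p) (by omega)
  have g2 := fac_six (u := c) (by omega)
  have g5 : p ! ≤ c ! := Nat.factorial_le hc1
  have g6 : (p + 1)! = (p + 1) * p ! := Nat.factorial_succ p
  have g7 : (c + 1)! = (c + 1) * c ! := Nat.factorial_succ c
  have g8 : 6 * p ! ≤ (p + 1)! := by rw [g6]; exact Nat.mul_le_mul_right _ (by omega)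
  have g9 : 6 * c ! ≤ (c + 1)! := by rw [g7]; exact Nat.mul_le_mul_right _ (by omega)
  have n0 : Near p c 1 (p, c) := (near_self _ _).mono (by omega)
  have n1 : Near p c 1 (p + 1, c + 1) := ⟨by simp only; omega, by simp only; omega, by simp only; omega⟩
  refine ⟨fun a => a = (p, c) ∨ a = (p + 1, c + 1) ∨ a = (p !, c !) ∨
    a = ((p + 1)!, (c + 1)!), ?_, ?_, ?_, ⟨p, hpV, c, Or.inl rfl, hc2⟩⟩
  · rintro a a' (h | h | h | h) (h' | h' | h' | h') <;> subst h <;> subst h'
    · exact rel_self _ (by simp only; omega)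
    · exact near_near (Or.inr (Or.inl ⟨rfl, by omega⟩)) (by omega) n0 n1
    · exact rel_chain (by omega) hc1
    · exact rel_chain2 (by omega) hc1 (by omega) (by omega) (by omega)
    · exact near_near (Or.inr (Or.inl ⟨rfl, by omega⟩)) (by omega) n1 n0
    · exact rel_self _ (by simp only; omega)
    · exact rel_up1 (w := p) (b := c) (by omega) (by omega) rfl rfl
        ((near_self _ _).mono (by omega)) hc5.1 (Or.inl rfl)
    · exact rel_chain (by omega) (by omega)
    · exact rel_down' (by omega) (by omega) (by omega)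
    · exact rel_down' (by omega) (by omega) (by omega)
    · exact rel_self _ (by simp only; omega)
    · refine ⟨fun h => ?_, fun h => ?_, fun h => ?_, fun h => ?_⟩
      · simp only at h; omega
      · simp only at h; omega
      · simp only at h
        have : p ! = p + 1 := fac_near (by omega) h (by omega) (by omega)
        omega
      · exfalso
        simp only at h
        exact h (Nat.factorial_dvd_factorial (by omega))
    · exact rel_down' (by omega) (by omega) (by omega)
    · exact rel_down' (by omega) (by omega) (by omega)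
    · exact rel_down' (by omega) (by omega) (by omega)
    · exact rel_self _ (by simp only; omega)
  · rintro a (h | h | h | h) <;> subst h <;> simp only <;> omega
  · intro u hu
    rcases hV u hu with h | h | h | h
    · exact ⟨c, Or.inl (by rw [h])⟩
    · exact ⟨c + 1, Or.inr (Or.inl (by rw [h]))⟩
    · exact ⟨c !, Or.inr (Or.inr (Or.inl (by rw [h])))⟩
    · exact ⟨(c + 1)!, Or.inr (Or.inr (Or.inr (by rw [h])))⟩

/-- Two unrelated pairs `p`, `p !` and `w`, `w !`. -/
theorem t3 {V : Finset ℕ} {p w : ℕ} (hp : 3 ≤ p) (hpw : p + 1 < w) (h1 : p ! ≠ w)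
    (h2 : p ! + 1 ≠ w) (h3 : w + 1 ≠ p !) (h4 : (p !)! ≠ w) (hwV : w ∈ V)
    (hV : ∀ u ∈ V, u = p ∨ u = p ! ∨ u = w ∨ u = w !) (N : ℕ) : Good V N := by
  obtain ⟨b, hb, hbp⟩ := Nat.exists_infinite_primes (w + p ! + N + 9)
  have g1 := fac_gap hp
  have g2 := fac_six (u := b) (by omega)
  have g3 := fac_six (u := w) (by omega)
  have g4 := fac_six (u := p !) (by omega)
  have g5 : 6 * p ! ≤ w ! := by
    have : (p + 1)! ≤ w ! := Nat.factorial_le (by omega)
    have h6 : (p + 1)! = (p + 1) * p ! := Nat.factorial_succ p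
    have h7 : (p + 2)! = (p + 2) * (p + 1)! := Nat.factorial_succ (p + 1)
    have h8 : (p + 2)! ≤ w ! := Nat.factorial_le (by omega)
    nlinarith
  have g6 : w ! ≤ b ! := Nat.factorial_le (by omega)
  have nd : ∀ k, 2 ≤ k → k < b → ¬ k ∣ b := by
    intro k hk1 hk2 hk
    rcases (Nat.dvd_prime hbp).1 hk with h | h <;> omega
  refine ⟨fun a => a = (p, p) ∨ a = (p !, p !) ∨ a = (w, b) ∨ a = (w !, b !), ?_, ?_, ?_,
    ⟨w, hwV, b, Or.inr (Or.inr (Or.inl rfl)), by omega⟩⟩
  · rintro a a' (h | h | h | h) (h' | h' | h' | h') <;> subst h <;> subst h'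
    · exact rel_pin_pin _ _
    · exact ⟨id, id, id, id⟩
    · exact ⟨fun h => by simp only at h; omega, fun h => by simp only at h; omega,
        fun h => absurd h h1, fun _ => nd _ (by simp only; omega) (by simp only; omega)⟩
    · exact rel_chain2 (by omega) le_rfl (by omega) (by omega) (by omega)
    · exact ⟨id, id, id, id⟩
    · exact rel_pin_pin _ _
    · exact ⟨fun h => absurd h h1, fun h => absurd h h2,
        fun h => absurd h h4, fun _ => nd _ (by simp only; omega) (by simp only; omega)⟩
    · refine ⟨fun h => ?_, fun h => ?_, fun h => ?_, fun h => ?_⟩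
      · simp only at h; omega
      · simp only at h; omega
      · simp only at h
        have : p ! = w := fac_near (by omega) h (by omega) (by omega)
        omega
      · exfalso
        simp only at h
        exact h (Nat.factorial_dvd_factorial (by omega))
    · exact rel_down' (by omega) (by omega) (by omega)
    · refine ⟨fun h => ?_, fun h => ?_, fun h => ?_, fun h => ?_⟩
      · simp only at h; omega
      · simp only at h; omega
      · simp only at h
        have := Nat.factorial_inj (by omega : 1 < w) |>.1 h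
        omega
      · simp only
        exact Nat.not_dvd_of_pos_of_lt (by omega) (by omega)
    · exact rel_self _ (by simp only; omega)
    · exact rel_chain (by omega) (by omega)
    · exact rel_down' (by omega) (by omega) (by omega)
    · exact rel_down' (by omega) (by omega) (by omega)
    · exact rel_down' (by omega) (by omega) (by omega)
    · exact rel_self _ (by simp only; omega)
  · rintro a (h | h | h | h) <;> subst h <;> simp only <;> omega
  · intro u hu
    rcases hV u hu with h | h | h | h
    · exact ⟨p, Or.inl (by rw [h])⟩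
    · exact ⟨p !, Or.inr (Or.inl (by rw [h]))⟩
    · exact ⟨b, Or.inr (Or.inr (Or.inl (by rw [h])))⟩
    · exact ⟨b !, Or.inr (Or.inr (Or.inr (by rw [h])))⟩

end Pool.Agent.LibFSN
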