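import Mathlib
import Pool.Agent.LibFSN.Types2

/-!
Classification of the value sets with at most four elements.
-/

set_option autoImplicit false

namespace Pool.Agent.LibFSN

open Nat Finset

/-- A set of values, closed under successor relations and without factorial relations, can be
moved. -/
theorem free_run {V R : Finset ℕ} (hR : R ⊆ V) (hne : R.Nonempty) (hpos : ∀ u ∈ V, 1 ≤ u)
    (hs : ∀ u ∈ R, ∀ v ∈ V, (u + 1 = v → v ∈ R) ∧ (v + 1 = u → v ∈ R))
    (hf : ∀ u ∈ R, ∀ v ∈ V, u ! ≠ v ∧ v ! ≠ u) (N : ℕ) : Good V N := by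
  classical
  obtain ⟨T, hT1, hT2, hT3⟩ : ∃ T, N ≤ T ∧ (∀ u ∈ V, u < T) ∧ ∀ u ∈ V, u ∣ T := by
    have hp : 1 ≤ ∏ v ∈ V, v := Finset.one_le_prod' fun v hv => hpos v hv
    have h0 : N + 1 + ∑ v ∈ V, v ≤ (∏ v ∈ V, v) * (N + 1 + ∑ v ∈ V, v) :=
      Nat.le_mul_of_pos_left _ hp
    refine ⟨(∏ v ∈ V, v) * (N + 1 + ∑ v ∈ V, v), by omega, fun u hu => ?_, fun u hu =>
      (dvd_prod_of_mem (fun v => v) hu).mul_right _⟩
    have h1 : u ≤ ∑ v ∈ V, v := single_le_sum (f := fun v => v) (fun _ _ => Nat.zero_le _) hu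
    omega
  let g : ℕ → ℕ := fun u => if u ∈ R then u + T else u
  have g1 : ∀ {u}, u ∈ R → g u = u + T := fun h => if_pos h
  have g2 : ∀ {u}, u ∉ R → g u = u := fun h => if_neg h
  refine ⟨fun a => a.1 ∈ V ∧ a.2 = g a.1, ?_, ?_, fun u hu => ⟨g u, hu, rfl⟩, ?_⟩
  · rintro ⟨u, x⟩ ⟨v, y⟩ ⟨hu, hx⟩ ⟨hv, hy⟩
    simp only at hu hx hv hy
    subst hx hy
    refine ⟨fun h => ?_, fun h => ?_, fun h => ?_, fun h => ?_⟩
    · simp only at h ⊢; rw [h]
    · simp only at h ⊢
      by_cases huR : u ∈ R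
      · have hvR := (hs u huR v hv).1 h
        rw [g1 huR, g1 hvR]; omega
      · have hvR : v ∉ R := fun hvR => huR ((hs v hvR u hu).2 h)
        rw [g2 huR, g2 hvR]; exact h
    · simp only at h ⊢
      have huR : u ∉ R := fun huR => (hf u huR v hv).1 h
      have hvR : v ∉ R := fun hvR => (hf v hvR u hu).2 h
      rw [g2 huR, g2 hvR]; exact h
    · simp only at h ⊢
      have hu1 := hpos u hu
      have hv1 := hpos v hv
      have hu2 := hT2 u hu
      have hv2 := hT2 v hv
      by_cases huR : u ∈ R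
      · rw [g1 huR]
        by_cases hvR : v ∈ R
        · rw [g1 hvR]
          intro hd
          rcases lt_trichotomy u v with hlt | he | hlt
          · have h1 : u + T ∣ v + T - (u + T) := Nat.dvd_sub hd dvd_rfl
            have := Nat.le_of_dvd (by omega) h1
            omega
          · exact h (he ▸ dvd_rfl)
          · have := Nat.le_of_dvd (by omega) hd
            omega
        · rw [g2 hvR]
          intro hd
          have := Nat.le_of_dvd (by omega) hd
          omega
      · rw [g2 huR]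
        by_cases hvR : v ∈ R
        · rw [g1 hvR]
          intro hd
          exact h ((Nat.dvd_add_left (hT3 u hu)).1 hd)
        · rw [g2 hvR]; exact h
  · rintro ⟨u, x⟩ ⟨hu, hx⟩
    simp only at hu hx
    subst hx
    have := hpos u hu
    simp only [g]
    split_ifs <;> omega
  · obtain ⟨u, hu⟩ := hne
    exact ⟨u, hR hu, g u, ⟨hR hu, rfl⟩, by rw [g1 hu]; omega⟩

theorem card_run {V : Finset ℕ} {u M : ℕ} (h : ∀ z, u ≤ z → z ≤ M → z ∈ V) :
    M + 1 - u ≤ V.card := by
  rw [← Nat.card_Icc]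
  exact card_le_card fun z hz => h z (mem_Icc.1 hz).1 (mem_Icc.1 hz).2

theorem top {V : Finset ℕ} {k M : ℕ} (hk : V.card ≤ k) (hpos : ∀ u ∈ V, 1 ≤ u)
    (hM : M ∈ V) (hmax : ∀ u ∈ V, u ≤ M)
    (hbig : (k = 1 ∧ 3 ≤ M) ∨ (k = 2 ∧ 4 ≤ M) ∨ (k = 3 ∧ 7 ≤ M) ∨ (k = 4 ∧ 721 ≤ M)) (N : ℕ) :
    Good V N ∨ ∃ w ∈ V, w ! ∈ V ∧ 3 ≤ w ∧ M + 2 ≤ w ! + k := by
  classical
  let R : Finset ℕ := V.filter fun u => ∀ z, u ≤ z → z ≤ M → z ∈ V
  have hRmem : ∀ {u}, u ∈ R ↔ u ∈ V ∧ ∀ z, u ≤ z → z ≤ M → z ∈ V := fun {u} => mem_filter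
  have hMR : M ∈ R := hRmem.2 ⟨hM, fun z h1 h2 => by rw [le_antisymm h2 h1]; exact hM⟩
  by_cases hfree : ∀ u ∈ R, ∀ v ∈ V, u ! ≠ v ∧ v ! ≠ u
  · left
    refine free_run (filter_subset _ _) ⟨M, hMR⟩ hpos ?_ hfree N
    intro u hu v hv
    refine ⟨fun h => hRmem.2 ⟨hv, fun z h1 h2 => (hRmem.1 hu).2 z (by omega) h2⟩,
      fun h => hRmem.2 ⟨hv, fun z h1 h2 => ?_⟩⟩
    by_cases hz : z = v
    · exact hz ▸ hv
    · exact (hRmem.1 hu).2 z (by omega) h2
  · right
    push Not at hfree
    obtain ⟨u, hu, v, hv, h⟩ := hfree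
    have hc := card_run (hRmem.1 hu).2
    have hu' := hmax u (hRmem.1 hu).1
    have hv' := hmax v hv
    have h3 : 3 ≤ u := by omega
    have hne : u ! ≠ v := by
      have := fac_gap h3
      rcases hbig with ⟨rfl, hb⟩ | ⟨rfl, hb⟩ | ⟨rfl, hb⟩ | ⟨rfl, hb⟩
      · omega
      · omega
      · have := fac_six (u := u) (by omega); omega
      · have := fac_six (u := u) (by omega); omega
    have hvu := h hne
    have hv3 : 3 ≤ v := by
      by_contra hc'
      have : v ! ≤ 2 ! := Nat.factorial_le (by omega)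
      have h2 : (2 : ℕ)! = 2 := rfl
      omega
    refine ⟨v, hv, hvu ▸ (hRmem.1 hu).1, hv3, ?_⟩
    have hgap := fac_gap hv3
    have hcard : (insert v (Icc (v !) M)).card ≤ V.card := by
      apply card_le_card
      intro z hz
      rcases mem_insert.1 hz with rfl | hz
      · exact hv
      · rw [mem_Icc] at hz
        exact (hRmem.1 hu).2 z (by omega) hz.2
    rw [card_insert_of_notMem (by rw [mem_Icc]; omega), Nat.card_Icc] at hcard
    omega

/-- Every value has a relation to some value, unless it can be moved. -/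
theorem single {V : Finset ℕ} (hpos : ∀ u ∈ V, 1 ≤ u) {N : ℕ} (hg : ¬ Good V N) {p : ℕ}
    (hp : p ∈ V) : ∃ v ∈ V, p + 1 = v ∨ v + 1 = p ∨ p ! = v ∨ v ! = p := by
  by_contra hc
  push Not at hc
  apply hg
  refine free_run (R := {p}) (by simpa using hp) (by simp) hpos ?_ ?_ N
  · intro u hu v hv
    rw [mem_singleton] at hu
    subst hu
    exact ⟨fun h => absurd h (hc v hv).1, fun h => absurd h (hc v hv).2.1⟩
  · intro u hu v hv
    rw [mem_singleton] at hu
    subst hu
    exact ⟨(hc v hv).2.2.1, (hc v hv).2.2.2⟩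

theorem pair {V : Finset ℕ} (hpos : ∀ u ∈ V, 1 ≤ u) {N : ℕ} (hg : ¬ Good V N) {p : ℕ}
    (hp : p ∈ V) (hp1 : p + 1 ∈ V) : ∃ u, (u = p ∨ u = p + 1) ∧
      ∃ v ∈ V, (v ≠ p ∧ v ≠ p + 1 ∧ (u + 1 = v ∨ v + 1 = u)) ∨ (u ! = v ∨ v ! = u) := by
  classical
  by_contra hc
  push Not at hc
  apply hg
  refine free_run (R := {p, p + 1}) ?_ (by simp) hpos ?_ ?_ N
  · intro z hz
    rcases mem_insert.1 hz with rfl | hz
    · exact hp
    · rw [mem_singleton.1 hz]; exact hp1
  · intro u hu v hv
    have hu' : u = p ∨ u = p + 1 := by simpa using hu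
    have h := hc u hu' v hv
    rw [mem_insert, mem_singleton]
    constructor
    · intro h'
      by_contra hn
      push Not at hn
      exact (h.1 hn.1 hn.2).1 h'
    · intro h'
      by_contra hn
      push Not at hn
      exact (h.1 hn.1 hn.2).2 h'
  · intro u hu v hv
    have hu' : u = p ∨ u = p + 1 := by simpa using hu
    exact (hc u hu' v hv).2

/-- One or two values. -/
theorem good_two {V : Finset ℕ} {k : ℕ} (hk : V.card ≤ k) (hk2 : k = 1 ∨ k = 2)
    (hpos : ∀ u ∈ V, 1 ≤ u) (h : ∃ M ∈ V, bnd k < M) (N : ℕ) : Good V N := by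
  classical
  obtain ⟨M₀, hM₀, hb⟩ := h
  obtain ⟨M, hM, hmax⟩ := V.exists_max_image id ⟨M₀, hM₀⟩
  simp only [id] at hmax
  have hMM := hmax _ hM₀
  have hbig : (k = 1 ∧ 3 ≤ M) ∨ (k = 2 ∧ 4 ≤ M) ∨ (k = 3 ∧ 7 ≤ M) ∨ (k = 4 ∧ 721 ≤ M) := by
    rcases hk2 with rfl | rfl
    · rw [bnd_one] at hb; omega
    · rw [bnd_two] at hb; omega
  rcases top hk hpos hM hmax hbig N with h | ⟨w, hw, hw', h3, h4⟩
  · exact h
  · have hgap := fac_gap h3
    have hV : ∀ u ∈ V, u = w ∨ u = w ! := by
      intro u hu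
      by_contra hc
      push Not at hc
      have : ({u, w, w !} : Finset ℕ).card ≤ V.card := by
        apply card_le_card
        intro z hz
        simp only [mem_insert, mem_singleton] at hz
        rcases hz with rfl | rfl | rfl
        · exact hu
        · exact hw
        · exact hw'
      rw [card_insert_of_notMem (by simp [hc.1, hc.2]),
        card_insert_of_notMem (by simp; omega), card_singleton] at this
      omega
    exact t0c (e := 1) h3 (Or.inl rfl) hw
      (fun u hu => (hV u hu).imp_right fun h => ⟨by omega, by omega⟩) N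

theorem exists_cover {V : Finset ℕ} {a b : ℕ} (ha : a ∈ V) (hb : b ∈ V) (hab : a ≠ b) {k : ℕ}
    (hk : V.card ≤ k) :
    (k ≤ 3 → ∃ p ∈ V, ∀ u ∈ V, u = a ∨ u = b ∨ u = p) ∧
      (k ≤ 4 → ∃ p ∈ V, ∃ q ∈ V, ∀ u ∈ V, u = a ∨ u = b ∨ u = p ∨ u = q) := by
  classical
  have hc : ((V.erase a).erase b).card = V.card - 2 := by
    rw [card_erase_of_mem (mem_erase.2 ⟨hab.symm, hb⟩), card_erase_of_mem ha]
    omega
  have hsub : ∀ u ∈ V, u = a ∨ u = b ∨ u ∈ (V.erase a).erase b := by
    intro u hu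
    by_cases h1 : u = a
    · exact Or.inl h1
    · by_cases h2 : u = b
      · exact Or.inr (Or.inl h2)
      · exact Or.inr (Or.inr (mem_erase.2 ⟨h2, mem_erase.2 ⟨h1, hu⟩⟩))
  have hV : ∀ u ∈ (V.erase a).erase b, u ∈ V := fun u hu => (mem_erase.1 (mem_erase.1 hu).2).2
  constructor
  · intro hk3
    rcases Nat.lt_or_ge ((V.erase a).erase b).card 1 with h | h
    · have h0 : (V.erase a).erase b = ∅ := card_eq_zero.1 (by omega)
      refine ⟨a, ha, fun u hu => ?_⟩
      rcases hsub u hu with h | h | h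
      · exact Or.inl h
      · exact Or.inr (Or.inl h)
      · rw [h0] at h; simp at h
    · obtain ⟨p, hp⟩ := card_eq_one.1 (show ((V.erase a).erase b).card = 1 by omega)
      refine ⟨p, hV p (by rw [hp]; simp), fun u hu => ?_⟩
      rcases hsub u hu with h | h | h
      · exact Or.inl h
      · exact Or.inr (Or.inl h)
      · rw [hp, mem_singleton] at h; exact Or.inr (Or.inr h)
  · intro hk4
    rcases Nat.lt_or_ge ((V.erase a).erase b).card 1 with h | h
    · have h0 : (V.erase a).erase b = ∅ := card_eq_zero.1 (by omega)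
      refine ⟨a, ha, a, ha, fun u hu => ?_⟩
      rcases hsub u hu with h | h | h
      · exact Or.inl h
      · exact Or.inr (Or.inl h)
      · rw [h0] at h; simp at h
    · rcases Nat.lt_or_ge ((V.erase a).erase b).card 2 with h' | h'
      · obtain ⟨p, hp⟩ := card_eq_one.1 (show ((V.erase a).erase b).card = 1 by omega)
        refine ⟨p, hV p (by rw [hp]; simp), p, hV p (by rw [hp]; simp), fun u hu => ?_⟩
        rcases hsub u hu with h | h | h
        · exact Or.inl h
        · exact Or.inr (Or.inl h)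
        · rw [hp, mem_singleton] at h; exact Or.inr (Or.inr (Or.inl h))
      · obtain ⟨p, q, -, hpq⟩ := card_eq_two.1 (show ((V.erase a).erase b).card = 2 by omega)
        refine ⟨p, hV p (by rw [hpq]; simp), q, hV q (by rw [hpq]; simp), fun u hu => ?_⟩
        rcases hsub u hu with h | h | h
        · exact Or.inl h
        · exact Or.inr (Or.inl h)
        · rw [hpq, mem_insert, mem_singleton] at h; exact Or.inr (Or.inr h)

/-- Three values. -/
theorem good_three {V : Finset ℕ} (hk : V.card ≤ 3) (hpos : ∀ u ∈ V, 1 ≤ u)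
    (h : ∃ M ∈ V, bnd 3 < M) (N : ℕ) : Good V N := by
  classical
  by_contra hg
  obtain ⟨M₀, hM₀, hb⟩ := h
  obtain ⟨M, hM, hmax⟩ := V.exists_max_image id ⟨M₀, hM₀⟩
  simp only [id] at hmax
  have hMM := hmax _ hM₀
  rw [bnd_three] at hb
  rcases top hk hpos hM hmax (Or.inr (Or.inr (Or.inl ⟨rfl, by omega⟩))) N with h | ⟨w, hw, hw', h3, h4⟩
  · exact hg h
  have hgap := fac_gap h3
  obtain ⟨p, hp, hV⟩ := (exists_cover hw hw' (by omega) hk).1 le_rfl
  have hpM := hmax p hp
  have hp1 := hpos p hp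
  rcases h3.eq_or_lt with rfl | hw4
  · have h6 : (3 : ℕ)! = 6 := rfl
    rw [h6] at h4 hw' hV
    refine hg (t0c (w := 3) (e := 1) le_rfl (Or.inl rfl) hw (fun u hu => ?_) N)
    have hM7 : p = 7 := by
      rcases hV M hM with h | h | h <;> omega
    rcases hV u hu with h | h | h <;> simp only [h6] <;> omega
  · have hsix := fac_six (u := w) hw4
    have hD : p = w ∨ p = w ! ∨ p + 1 = w ∨ p = w + 1 ∨ p + 1 = w ! ∨ p = w ! + 1 ∨ p = 1 ∨ p = 2 ∨
        p ! = w := by
      obtain ⟨v, hv, h⟩ := single hpos hg hp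
      rcases hV v hv with rfl | rfl | rfl
      · rcases h with h | h | h | h
        · omega
        · omega
        · omega
        · omega
      · rcases h with h | h | h | h
        · omega
        · omega
        · have := (Nat.factorial_inj' (n := w) (m := p) (by omega)).1 h.symm
          omega
        · have := fac_six (u := w !) (by omega)
          omega
      · rcases h with h | h | h | h
        · omega
        · omega
        · have : v < 3 := by
            by_contra hc
            have := fac_gap (u := v) (by omega)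
            omega
          omega
        · have : v < 3 := by
            by_contra hc
            have := fac_gap (u := v) (by omega)
            omega
          omega
    by_cases hpw : p ! = w
    · have hp3 : 3 ≤ p := by
        by_contra hc
        have : p ! ≤ 2 ! := Nat.factorial_le (by omega)
        have h2 : (2 : ℕ)! = 2 := rfl
        omega
      have hgp := fac_gap hp3
      subst hpw
      refine hg (t1p (q := p) hp3 hp (fun h => ?_) (fun u hu => ?_) N)
      · rcases hV 2 h with h | h | h <;> omega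
      · rcases hV u hu with h | h | h <;> omega
    · refine hg (t0a (w := w) (by omega) hw (fun h4' h2 h3' => ?_) (fun u hu => ?_) N)
      · rcases hV 2 h2 with h | h | h <;> rcases hV 3 h3' with h' | h' | h' <;> omega
      · rcases hV u hu with h | h | h <;> omega

end Pool.Agent.LibFSN
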