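import Mathlib
import Pool.Agent.LibFSN.Classify

/-!
Value sets with four elements.
-/

set_option autoImplicit false

namespace Pool.Agent.LibFSN

open Nat Finset

/-- Direct relation of `p` to `w`, `w !` or a pinned value. -/
def Dir (w p : ℕ) : Prop :=
  p = w ∨ p = w ! ∨ p + 1 = w ∨ p = w + 1 ∨ p + 1 = w ! ∨ p = w ! + 1 ∨ p = 1 ∨ p = 2 ∨ p ! = w

theorem small_of_fac {v : ℕ} (h : v ! ≤ v + 1) : v < 3 := by
  by_contra hc
  have := fac_gap (u := v) (by omega)
  omega

theorem three_of_fac {p w : ℕ} (h : p ! = w) (hw : 3 ≤ w) : 3 ≤ p := by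
  by_contra hc
  have : p ! ≤ 2 ! := Nat.factorial_le (by omega)
  have h2 : (2 : ℕ)! = 2 := rfl
  omega

/-- A value is directly related or related to the fourth value. -/
theorem dir_or {V : Finset ℕ} (hpos : ∀ u ∈ V, 1 ≤ u) {N : ℕ} (hg : ¬ Good V N) {w p q : ℕ}
    (hw : 6 ≤ w) (hmax : ∀ u ∈ V, u ≤ w ! + 2) (hp : p ∈ V)
    (hV : ∀ u ∈ V, u = w ∨ u = w ! ∨ u = p ∨ u = q) :
    Dir w p ∨ p + 1 = q ∨ q + 1 = p ∨ p ! = q ∨ q ! = p := by
  have hsix := fac_six (u := w) (by omega)
  have hp1 := hpos p hp
  have hpM := hmax p hp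
  unfold Dir
  obtain ⟨v, hv, h⟩ := single hpos hg hp
  rcases hV v hv with rfl | rfl | rfl | rfl
  · rcases h with h | h | h | h <;> omega
  · rcases h with h | h | h | h
    · omega
    · omega
    · have := (Nat.factorial_inj' (n := w) (m := p) (by omega)).1 h.symm
      omega
    · have := fac_six (u := w !) (by omega)
      omega
  · rcases h with h | h | h | h
    · omega
    · omega
    · have := small_of_fac (v := v) (by omega)
      omega
    · have := small_of_fac (v := v) (by omega)
      omega
  · rcases h with h | h | h | h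
    · exact Or.inr (Or.inl h)
    · exact Or.inr (Or.inr (Or.inl h))
    · exact Or.inr (Or.inr (Or.inr (Or.inl h)))
    · exact Or.inr (Or.inr (Or.inr (Or.inr h)))

/-- Both values directly related, one of them a factorial root of `w`. -/
theorem good_root {V : Finset ℕ} {N : ℕ}
    (H : {m : ℕ | (m ! + 1).Prime}.Infinite) {p q : ℕ}
    (hw : 6 ≤ p !) (hbig : ∃ M ∈ V, 720 < M) (hp : p ∈ V)
    (hV : ∀ u ∈ V, u = p ! ∨ u = (p !)! ∨ u = p ∨ u = q) (hq : Dir (p !) q) : Good V N := by
  have hp3 : 3 ≤ p := three_of_fac rfl (by omega)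
  have hgp := fac_gap hp3
  have hsix := fac_six (u := p !) (by omega)
  rcases hq with h | h | h | h | h | h | h | h | h
  · exact t1p hp3 hp (fun h2 => by rcases hV 2 h2 with h | h | h | h <;> omega)
      (fun u hu => by rcases hV u hu with h | h | h | h <;> omega) N
  · exact t1p hp3 hp (fun h2 => by rcases hV 2 h2 with h | h | h | h <;> omega)
      (fun u hu => by rcases hV u hu with h | h | h | h <;> omega) N
  · exact t1t hp3 hp (fun u hu => by rcases hV u hu with h | h | h | h <;> omega) (fun _ => H) N
  · exact t1t hp3 hp (fun u hu => by rcases hV u hu with h | h | h | h <;> omega) (fun _ => H) N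
  · exact t1r hp3 hp (fun u hu => by rcases hV u hu with h | h | h | h <;> omega) N
  · exact t1r hp3 hp (fun u hu => by rcases hV u hu with h | h | h | h <;> omega) N
  · exact t1p hp3 hp (fun h2 => by rcases hV 2 h2 with h | h | h | h <;> omega)
      (fun u hu => by rcases hV u hu with h | h | h | h <;> omega) N
  · refine t1p hp3 hp (fun h2 => ?_) (fun u hu => by rcases hV u hu with h | h | h | h <;> omega) N
    by_contra hc
    have : p = 3 := by omega
    subst this
    have h6 : (3 : ℕ)! = 6 := rfl
    have h720 : (6 : ℕ)! = 720 := rfl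
    obtain ⟨M, hM, hM7⟩ := hbig
    rcases hV M hM with h' | h' | h' | h'
    · omega
    · rw [h6, h720] at h'; omega
    · omega
    · omega
  · have : q = p := (Nat.factorial_inj' (n := q) (m := p) (by have := three_of_fac h (by omega); omega)).1 h
    exact t1p hp3 hp (fun h2 => by rcases hV 2 h2 with h | h | h | h <;> omega)
      (fun u hu => by rcases hV u hu with h | h | h | h <;> omega) N

/-- `p` directly related, `q` related to `p` only. -/
theorem good_mixed {V : Finset ℕ} (hpos : ∀ u ∈ V, 1 ≤ u) {N : ℕ} {w p q : ℕ}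
    (hw : 6 ≤ w) (hmax : ∀ u ∈ V, u ≤ w ! + 2) (hbig : ∃ M ∈ V, 720 < M) (hwV : w ∈ V)
    (hp : p ∈ V) (hq : q ∈ V) (hV : ∀ u ∈ V, u = w ∨ u = w ! ∨ u = p ∨ u = q) (hDp : Dir w p)
    (hDq : ¬ Dir w q) (h : p + 1 = q ∨ q + 1 = p ∨ p ! = q ∨ q ! = p) : Good V N := by
  have hsix := fac_six (u := w) (by omega)
  have hp1 := hpos p hp
  have hq1 := hpos q hq
  have hqM := hmax q hq
  have hpM := hmax p hp
  unfold Dir at hDq
  push Not at hDq
  obtain ⟨d1, d2, d3, d4, d5, d6, d7, d8, d9⟩ := hDq
  have hq3 : 3 ≤ q := by omega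
  have hgq := fac_gap hq3
  have hww := fac_six (u := w !) (by omega)
  rcases hDp with e | e | e | e | e | e | e | e | e
  · subst e
    rcases h with h | h | h | h <;> omega
  · subst e
    rcases h with h | h | h | h
    · omega
    · omega
    · omega
    · exact absurd ((Nat.factorial_inj' (n := q) (m := w) (by omega)).1 h) d1
  · rcases h with h | h | h | h
    · omega
    · exact t0b hw hwV (fun u hu => by rcases hV u hu with h | h | h | h <;> omega) N
    · subst e
      exact t2 (p := p) (by omega) hp (fun u hu => by rcases hV u hu with h | h | h | h <;> omega) N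
    · subst e
      exact t1b (q := q) (w := p + 1) hq3 hq (Or.inl (by omega)) (by omega)
        (fun u hu => by rcases hV u hu with h | h | h | h <;> omega) N
  · rcases h with h | h | h | h
    · exact t0b hw hwV (fun u hu => by rcases hV u hu with h | h | h | h <;> omega) N
    · omega
    · exfalso
      have h1 : (w + 1)! = (w + 1) * w ! := Nat.factorial_succ w
      have h2 : 2 * w ! ≤ (w + 1) * w ! := Nat.mul_le_mul_right _ (by omega)
      rw [e] at h
      omega
    · exact t1b (q := q) (w := w) hq3 hq (Or.inr (by omega)) (by omega)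
        (fun u hu => by rcases hV u hu with h | h | h | h <;> omega) N
  · rcases h with h | h | h | h
    · omega
    · exact t0c (e := 2) (by omega) (Or.inr ⟨rfl, by omega⟩) hwV
        (fun u hu => by rcases hV u hu with h | h | h | h <;> omega) N
    · have := fac_six (u := p) (by omega)
      omega
    · exact absurd (fac_near (w := w) (by omega) h (by omega) (by omega)) d1
  · rcases h with h | h | h | h
    · exact t0c (e := 2) (by omega) (Or.inr ⟨rfl, by omega⟩) hwV
        (fun u hu => by rcases hV u hu with h | h | h | h <;> omega) N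
    · omega
    · have := fac_six (u := p) (by omega)
      omega
    · exact absurd (fac_near (w := w) (by omega) h (by omega) (by omega)) d1
  · subst e
    rcases h with h | h | h | h
    · omega
    · omega
    · rw [Nat.factorial_one] at h; omega
    · omega
  · subst e
    rcases h with h | h | h | h
    · have hw7 : 7 ≤ w := by
        by_contra hc
        have : w = 6 := by omega
        subst this
        have h720 : (6 : ℕ)! = 720 := rfl
        obtain ⟨M, hM, hM7⟩ := hbig
        rcases hV M hM with h' | h' | h' | h' <;> omega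
      exact t0d hw7 hwV (fun u hu => by rcases hV u hu with h | h | h | h <;> omega) N
    · omega
    · rw [Nat.factorial_two] at h; omega
    · omega
  · have hp3 : 3 ≤ p := three_of_fac e (by omega)
    have hgp := fac_gap hp3
    subst e
    have hp4 : (p + 1 = q ∨ q + 1 = p) → 4 ≤ p := by
      intro h
      by_contra hc
      have : p = 3 := by omega
      subst this
      have h6 : (3 : ℕ)! = 6 := rfl
      have h720 : (6 : ℕ)! = 720 := rfl
      obtain ⟨M, hM, hM7⟩ := hbig
      rcases hV M hM with h' | h' | h' | h'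
      · omega
      · rw [h6, h720] at h'; omega
      · omega
      · omega
    rcases h with h | h | h | h
    · exact t1q (hp4 (Or.inl h)) hp (fun u hu => by rcases hV u hu with h | h | h | h <;> omega) N
    · exact t1q (hp4 (Or.inr h)) hp (fun u hu => by rcases hV u hu with h | h | h | h <;> omega) N
    · omega
    · subst h
      exact t1c hq3 hq (fun u hu => by rcases hV u hu with h | h | h | h <;> omega) N

/-- Neither `p` nor `q` directly related. -/
theorem good_none {V : Finset ℕ} (hpos : ∀ u ∈ V, 1 ≤ u) {N : ℕ} {w p q : ℕ}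
    (hw : 6 ≤ w) (hmax : ∀ u ∈ V, u ≤ w ! + 2) (hwV : w ∈ V)
    (hp : p ∈ V) (hq : q ∈ V) (hV : ∀ u ∈ V, u = w ∨ u = w ! ∨ u = p ∨ u = q) (hDp : ¬ Dir w p)
    (hDq : ¬ Dir w q) (h : p + 1 = q ∨ p ! = q) : Good V N := by
  have hsix := fac_six (u := w) (by omega)
  have hp1 := hpos p hp
  have hq1 := hpos q hq
  have hqM := hmax q hq
  have hpM := hmax p hp
  unfold Dir at hDp hDq
  push Not at hDp hDq
  obtain ⟨d1, d2, d3, d4, d5, d6, d7, d8, d9⟩ := hDq
  obtain ⟨c1, c2, c3, c4, c5, c6, c7, c8, c9⟩ := hDp
  have hq3 : 3 ≤ q := by omega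
  have hgq := fac_gap hq3
  have hp3 : 3 ≤ p := by omega
  have hgp := fac_gap hp3
  have hww := fac_six (u := w !) (by omega)
  rcases h with h | h
  · subst h
    by_contra hg
    obtain ⟨u, hu, v, hv, hr⟩ := pair hpos hg hp hq
    have i1 : p ! = w ! → False := fun h =>
      c1 ((Nat.factorial_inj' (n := p) (m := w) (by omega)).1 h)
    have i2 : (p + 1)! = w ! → False := fun h =>
      d1 ((Nat.factorial_inj' (n := p + 1) (m := w) (by omega)).1 h)
    rcases hu with rfl | rfl <;> rcases hV v hv with rfl | rfl | rfl | rfl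
    · rcases hr with ⟨n1, n2, h | h⟩ | h | h <;>
        first | omega | exact absurd rfl n1 | exact absurd rfl n2
    · rcases hr with ⟨n1, n2, h | h⟩ | h | h
      · omega
      · omega
      · exact i1 h
      · omega
    · rcases hr with ⟨n1, n2, h | h⟩ | h | h <;>
        first | omega | exact absurd rfl n1 | exact absurd rfl n2
    · rcases hr with ⟨n1, n2, h | h⟩ | h | h <;>
        first | omega | exact absurd rfl n1 | exact absurd rfl n2
    · rcases hr with ⟨n1, n2, h | h⟩ | h | h <;>
        first | omega | exact absurd rfl n1 | exact absurd rfl n2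
    · rcases hr with ⟨n1, n2, h | h⟩ | h | h
      · omega
      · omega
      · exact i2 h
      · omega
    · rcases hr with ⟨n1, n2, h | h⟩ | h | h <;>
        first | omega | exact absurd rfl n1 | exact absurd rfl n2
    · rcases hr with ⟨n1, n2, h | h⟩ | h | h <;>
        first | omega | exact absurd rfl n1 | exact absurd rfl n2
  · subst h
    have hpw : p < w := by
      by_contra hc
      have h1 : (w + 1)! = (w + 1) * w ! := Nat.factorial_succ w
      have h2 : 2 * w ! ≤ (w + 1) * w ! := Nat.mul_le_mul_right _ (by omega)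
      have h3 : (w + 1)! ≤ p ! := Nat.factorial_le (by omega)
      omega
    exact t3 hp3 (by omega) d1 (by omega) (by omega) d9 hwV
      (fun u hu => by rcases hV u hu with h | h | h | h <;> omega) N

/-- Four values. -/
theorem good_four (H : {m : ℕ | (m ! + 1).Prime}.Infinite) {V : Finset ℕ} (hk : V.card ≤ 4)
    (hpos : ∀ u ∈ V, 1 ≤ u) (h : ∃ M ∈ V, bnd 4 < M) (N : ℕ) : Good V N := by
  classical
  by_contra hg
  rw [bnd_four] at h
  obtain ⟨M₀, hM₀, hb⟩ := id h
  obtain ⟨M, hM, hmax⟩ := V.exists_max_image id ⟨M₀, hM₀⟩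
  simp only [id] at hmax
  have hMM := hmax _ hM₀
  rcases top hk hpos hM hmax (Or.inr (Or.inr (Or.inr ⟨rfl, by omega⟩))) N with h' | ⟨w, hw, hw', h3, h4⟩
  · exact hg h'
  have hw6 : 6 ≤ w := by
    by_contra hc
    have : w ! ≤ 5 ! := Nat.factorial_le (by omega)
    have h2 : (5 : ℕ)! = 120 := rfl
    omega
  have hsix := fac_six (u := w) (by omega)
  have hmax' : ∀ u ∈ V, u ≤ w ! + 2 := fun u hu => by have := hmax u hu; omega
  obtain ⟨p, hp, q, hq, hV⟩ := (exists_cover hw hw' (by omega) hk).2 le_rfl
  have hV' : ∀ u ∈ V, u = w ∨ u = w ! ∨ u = q ∨ u = p := fun u hu => by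
    rcases hV u hu with h | h | h | h <;> simp [h]
  have ip := dir_or hpos hg hw6 hmax' hp hV
  have iq := dir_or hpos hg hw6 hmax' hq hV'
  by_cases hDp : Dir w p
  · by_cases hDq : Dir w q
    · by_cases hpw : p ! = w
      · subst hpw
        exact hg (good_root H hw6 h hp hV hDq)
      · by_cases hqw : q ! = w
        · subst hqw
          exact hg (good_root H hw6 h hq hV' hDp)
        · unfold Dir at hDp hDq
          refine hg (t0a (w := w) (by omega) hw (fun h4' => by omega) (fun u hu => ?_) N)
          rcases hV u hu with h | h | h | h <;> omega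
    · have iq' : p + 1 = q ∨ q + 1 = p ∨ p ! = q ∨ q ! = p := by tauto
      exact hg (good_mixed hpos hw6 hmax' h hw hp hq hV hDp hDq iq')
  · by_cases hDq : Dir w q
    · have ip' : q + 1 = p ∨ p + 1 = q ∨ q ! = p ∨ p ! = q := by tauto
      exact hg (good_mixed hpos hw6 hmax' h hw hq hp hV' hDq hDp ip')
    · have ip' : (p + 1 = q ∨ p ! = q) ∨ (q + 1 = p ∨ q ! = p) := by tauto
      rcases ip' with h' | h'
      · exact hg (good_none hpos hw6 hmax' hw hp hq hV hDp hDq h')
      · exact hg (good_none hpos hw6 hmax' hw hq hp hV' hDq hDp h')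


end Pool.Agent.LibFSN
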