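import Mathlib
import Pool.Agent.LibFSN.Four

/-!
The statement for four unknowns implies the infinitude of the primes `m ! + 1`.
-/

set_option autoImplicit false

namespace Pool.Agent.LibFSN

open Nat Finset

/-- The factorial-prime system on four unknowns. -/
theorem primes_of_four
    (h : ∀ A B C : Set (Fin 4 × Fin 4), (Sols A B C).Finite → ∀ x ∈ Sols A B C, ∀ i, x i ≤ 720) :
    {m : ℕ | (m ! + 1).Prime}.Infinite := by
  intro hfin
  let A : Set (Fin 4 × Fin 4) := {(1, 2)}
  let B : Set (Fin 4 × Fin 4) := {(0, 1), (1, 3)}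
  let C : Set (Fin 4 × Fin 4) := {(2, 3)}
  have hsol : ∀ x : Fin 4 → ℕ, x ∈ Sols A B C ↔ (∀ i, 1 ≤ x i) ∧ x 1 + 1 = x 2 ∧
      ((x 0)! = x 1 ∧ (x 1)! = x 3) ∧ ¬ x 2 ∣ x 3 := by
    intro x
    simp [Sols, A, B, C]
  have key : (Sols A B C).Finite := by
    refine ((hfin.insert 0).image fun m => ![m, m !, m ! + 1, (m !)!]).subset ?_
    intro x hx
    rw [hsol] at hx
    obtain ⟨h0, h1, ⟨h2, h3⟩, h4⟩ := hx
    refine ⟨x 0, ?_, ?_⟩
    · rw [← h3, ← h1, ← h2] at h4
      right
      show ((x 0)! + 1).Prime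
      by_cases hx0 : x 0 < 3
      · have := h0 0
        interval_cases (x 0) <;> norm_num [Nat.factorial]
      · have h6 := fac_gap (u := x 0) (by omega)
        exact prime_of_not_dvd (by omega) (by omega) h4
    · funext i
      fin_cases i
      · rfl
      · exact h2
      · show (x 0)! + 1 = x 2
        rw [h2, h1]
      · show ((x 0)!)! = x 3
        rw [h2, h3]
  obtain ⟨F, hF⟩ : ∃ F : ℕ, (11)! = F := ⟨_, rfl⟩
  have hF' : F = 39916800 := by rw [← hF]; norm_num [Nat.factorial]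
  have h11 : (F + 1).Prime := by
    rw [hF']; norm_num
  have hF720 : 720 < F := by rw [hF']; norm_num
  clear hF'
  have hx : (![11, F, F + 1, F !] : Fin 4 → ℕ) ∈ Sols A B C := by
    rw [hsol]
    refine ⟨?_, rfl, ⟨hF, rfl⟩, ?_⟩
    · intro i
      fin_cases i
      · show 1 ≤ 11; norm_num
      · show 1 ≤ F; omega
      · show 1 ≤ F + 1; omega
      · exact Nat.factorial_pos _
    · exact not_dvd_fac_of_prime h11
  have h3 : F ≤ 720 := h A B C key _ hx 1
  omega

end Pool.Agent.LibFSN
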